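import Pool.Agent.H72.HR.Targets
import Pool.Agent.H72.HR.ShortVec

/-!
Modules CLB and SHV of MP_3cf473_nt (HR): classes of boxes modulo a subgroup, short vectors.
-/

namespace Pool.Agent.H35.HR

open Finset Module Pool.Agent.H72.HR

/-- the `ℤ`-rank of a subgroup of `ℤ^r` is the dimension of its `ℚ`-span -/
theorem finrank_qspan {r : ℕ} (G : AddSubgroup (Fin r → ℤ)) :
    finrank ℚ (qspan (G : Set (Fin r → ℤ))) = finrank ℤ G := by
  classical
  let N : Submodule ℤ (Fin r → ℤ) := AddSubgroup.toIntSubmodule G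
  have hN : finrank ℤ G = finrank ℤ N := rfl
  obtain ⟨n, b⟩ := Submodule.basisOfPid (Pi.basisFun ℤ (Fin r)) N
  have hn : finrank ℤ N = n := by rw [finrank_eq_card_basis b, Fintype.card_fin]
  let cst : (Fin r → ℤ) →ₗ[ℤ] (Fin r → ℚ) :=
    { toFun := fun v i => (v i : ℚ)
      map_add' := by intro v w; funext i; simp
      map_smul' := by intro c v; funext i; simp }
  have hcinj : Function.Injective cst := by
    intro v w h
    funext i
    have := congrFun h i
    simpa [cst] using this
  have h1 : LinearIndependent ℤ (fun j => cst (b j : Fin r → ℤ)) := by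
    have h2 : LinearIndependent ℤ (fun j => (b j : Fin r → ℤ)) :=
      b.linearIndependent.map' N.subtype (Submodule.ker_subtype N)
    exact h2.map' cst (LinearMap.ker_eq_bot.2 hcinj)
  have h3 : LinearIndependent ℚ (fun j => cst (b j : Fin r → ℤ)) :=
    (LinearIndependent.iff_fractionRing (R := ℤ) (K := ℚ)).1 h1
  have h4 : qspan (G : Set (Fin r → ℤ)) =
      Submodule.span ℚ (Set.range fun j => cst (b j : Fin r → ℤ)) := by
    apply le_antisymm
    · rw [qspan, Submodule.span_le]
      rintro _ ⟨v, hv, rfl⟩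
      have hv' : v ∈ N := hv
      have h5 := b.sum_repr ⟨v, hv'⟩
      have h6 : v = ∑ j, (b.repr ⟨v, hv'⟩ j) • (b j : Fin r → ℤ) := by
        have := congrArg Subtype.val h5
        simp only [Submodule.coe_sum, Submodule.coe_smul] at this
        exact this.symm
      have h7 : (fun i => (v i : ℚ)) = cst v := rfl
      change (fun i => (v i : ℚ)) ∈ _
      rw [h7, h6, map_sum]
      refine Submodule.sum_mem _ fun j _ => ?_
      rw [map_smul]
      have h8 : (b.repr ⟨v, hv'⟩ j) • cst (b j : Fin r → ℤ) =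
          ((b.repr ⟨v, hv'⟩ j : ℤ) : ℚ) • cst (b j : Fin r → ℤ) := by
        rw [Int.cast_smul_eq_zsmul]
      rw [h8]
      exact Submodule.smul_mem _ _ (Submodule.subset_span ⟨j, rfl⟩)
    · rw [Submodule.span_le]
      rintro _ ⟨j, rfl⟩
      exact cast_mem_qspan (b j).2
  rw [h4, finrank_span_eq_card h3, Fintype.card_fin, hN, hn]

/-- transport of a subgroup of `ℤ^ρ` to `ℤ^r` -/
def trG {ρ : Type} {r : ℕ} (e : ρ ≃ Fin r) (G : AddSubgroup (ρ → ℤ)) : AddSubgroup (Fin r → ℤ) where
  carrier := {v | (fun i => v (e i)) ∈ G}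
  add_mem' := by
    intro a b ha hb
    exact G.add_mem ha hb
  zero_mem' := G.zero_mem
  neg_mem' := by
    intro a ha
    exact G.neg_mem ha

theorem mem_trG {ρ : Type} {r : ℕ} (e : ρ ≃ Fin r) (G : AddSubgroup (ρ → ℤ)) (v : Fin r → ℤ) :
    v ∈ trG e G ↔ (fun i => v (e i)) ∈ G := Iff.rfl

theorem finrank_trG {ρ : Type} {r : ℕ} (e : ρ ≃ Fin r) (G : AddSubgroup (ρ → ℤ)) :
    finrank ℤ (trG e G) = finrank ℤ G := by
  let f : trG e G ≃+ G :=
    { toFun := fun v => ⟨fun i => v.1 (e i), v.2⟩
      invFun := fun w => ⟨fun i => w.1 (e.symm i), by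
        rw [mem_trG]
        simp⟩
      left_inv := by
        intro v
        apply Subtype.ext
        funext i
        simp
      right_inv := by
        intro v
        apply Subtype.ext
        funext i
        simp
      map_add' := by
        intro a b
        rfl }
  exact LinearEquiv.finrank_eq f.toIntLinearEquiv

theorem clb : T_CLB := by
  intro ρ _ _ G M
  classical
  let e : ρ ≃ Fin (Fintype.card ρ) := Fintype.equivFin ρ
  obtain ⟨T, hT1, hT2, hT3⟩ := classes_lower (trG e G) (M + 1) (Nat.succ_pos M)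
  rw [finrank_qspan, finrank_trG] at hT3
  have hinj : Function.Injective (fun (v : Fin (Fintype.card ρ) → ℤ) (i : ρ) => v (e i)) := by
    intro v w h
    funext i
    have := congrFun h (e.symm i)
    simpa using this
  refine ⟨T.image fun v i => v (e i), ?_, ?_, ?_⟩
  · intro s hs i
    obtain ⟨v, hv, rfl⟩ := Finset.mem_image.1 hs
    have := hT1 v hv (e i)
    push_cast at this
    exact ⟨this.1, Int.lt_add_one_iff.1 this.2⟩
  · intro s hs s' hs' hss
    obtain ⟨v, hv, rfl⟩ := Finset.mem_image.1 hs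
    obtain ⟨w, hw, rfl⟩ := Finset.mem_image.1 hs'
    rw [hT2 v hv w hw hss]
  · rw [Finset.card_image_of_injective _ hinj, hT3]

theorem shv : T_SHV := by
  intro ρ _ _ A
  classical
  let e : ρ ≃ Fin (Fintype.card ρ) := Fintype.equivFin ρ
  obtain ⟨K, M0, hK⟩ := short_vectors (Fintype.card ρ) (A : ℝ)
  refine ⟨max K M0, fun G M hM hF => ?_⟩
  have hspan := hK (trG e G) M ((le_max_right _ _).trans hM) (by
    intro T hT1 hT2
    rw [finrank_qspan, finrank_trG]
    have h1 := hF (T.image fun v i => v (e i)) (by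
      intro s hs i
      obtain ⟨v, hv, rfl⟩ := Finset.mem_image.1 hs
      have := hT1 v hv (e i)
      exact ⟨this.1, this.2.le⟩) (by
      intro s hs s' hs' hss
      obtain ⟨v, hv, rfl⟩ := Finset.mem_image.1 hs
      obtain ⟨w, hw, rfl⟩ := Finset.mem_image.1 hs'
      rw [hT2 v hv w hw hss])
    have hinj : Function.Injective (fun (v : Fin (Fintype.card ρ) → ℤ) (i : ρ) => v (e i)) := by
      intro v w h
      funext i
      have := congrFun h (e.symm i)
      simpa using this
    rw [Finset.card_image_of_injective _ hinj] at h1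
    exact_mod_cast h1)
  -- choose a basis among the short vectors
  let Sh : Set (Fin (Fintype.card ρ) → ℤ) := {v | v ∈ trG e G ∧ ∀ i, |v i| ≤ K}
  let fam : Sh → (Fin (Fintype.card ρ) → ℚ) := fun v i => ((v : Fin (Fintype.card ρ) → ℤ) i : ℚ)
  have hrange : Submodule.span ℚ (Set.range fam) = qspan Sh := by
    rw [qspan]
    congr 1
    ext x
    constructor
    · rintro ⟨v, rfl⟩
      exact ⟨v.1, v.2, rfl⟩
    · rintro ⟨v, hv, rfl⟩
      exact ⟨⟨v, hv⟩, rfl⟩
  obtain ⟨κ, a, hainj, hsp, hind⟩ := exists_linearIndependent' ℚ fam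
  have hfinκ : Finite κ := hind.finite
  have := Fintype.ofFinite κ
  have hcard : Fintype.card κ = finrank ℤ G := by
    rw [← finrank_span_eq_card hind, hsp, hrange, hspan, finrank_qspan, finrank_trG]
  let ε : Fin (finrank ℤ G) ≃ κ := (Fintype.equivFinOfCardEq hcard).symm
  refine ⟨fun j i => (a (ε j)).1 (e i), ?_, ?_, ?_⟩
  · intro j
    exact (a (ε j)).2.1
  · intro j i
    have := (a (ε j)).2.2 (e i)
    refine this.trans ?_
    exact_mod_cast le_max_left _ _
  · have h1 : LinearIndependent ℚ (fun j => fam (a (ε j))) := hind.comp ε ε.injective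
    have h2 : LinearIndependent ℤ (fun j => fam (a (ε j))) :=
      (LinearIndependent.iff_fractionRing (R := ℤ) (K := ℚ)).2 h1
    rw [linearIndependent_iff'] at h2 ⊢
    intro s g hg
    apply h2 s g
    funext i
    have := congrFun hg (e.symm i)
    simp only [Finset.sum_apply, Pi.smul_apply, smul_eq_mul, Equiv.apply_symm_apply,
      Pi.zero_apply] at this
    have h3 : ∀ x ∈ s, (g x • fam (a (ε x))) i = ((g x * (a (ε x)).1 i : ℤ) : ℚ) := by
      intro x _
      simp [fam]
    rw [Finset.sum_apply, Finset.sum_congr rfl h3, Pi.zero_apply]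
    exact_mod_cast this

end Pool.Agent.H35.HR
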