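import Pool.Agent.H35.HR.STR

/-!
Module CHN of MP_3cf473_nt (HR): the chain argument of the zero estimate.
-/

open MvPolynomial Module

namespace Pool.Agent.H35.HR

open Pool.Agent.H72.HR

section
variable {σ : Type} [Fintype σ] [DecidableEq σ] (κ : σ → Bool)

theorem le_DW (W : Submodule ℂ (σ → ℂ)) (L : Submodule ℂ (MvPolynomial σ ℂ)) :
    ∀ S, L ≤ DW κ W L S
  | 0 => le_refl _
  | (a + 1) => (le_DW W L a).trans le_sup_left

theorem le_TL {Γ : Set (σ → ℂ)} (h : (0 : σ → ℂ) ∈ Γ) (L : Submodule ℂ (MvPolynomial σ ℂ)) :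
    L ≤ TL κ Γ L := fun f hf =>
  Submodule.subset_span ⟨0, h, f, hf, by rw [tr_zero]⟩

theorem DW_box {T : σ → ℕ} (W : Submodule ℂ (σ → ℂ)) {L : Submodule ℂ (MvPolynomial σ ℂ)}
    (hL : L ≤ box T) : ∀ S, DW κ W L S ≤ box T
  | 0 => hL
  | (a + 1) => by
    refine sup_le (DW_box W hL a) ?_
    rw [Submodule.span_le]
    rintro _ ⟨w, -, f, hf, rfl⟩
    exact dv_box κ w f (DW_box W hL a hf)

theorem TL_box {T : σ → ℕ} (Γ : Set (σ → ℂ)) {L : Submodule ℂ (MvPolynomial σ ℂ)}
    (hL : L ≤ box T) : TL κ Γ L ≤ box T := by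
  rw [TL, Submodule.span_le]
  rintro _ ⟨g, -, f, hf, rfl⟩
  exact tr_box κ g f (hL hf)

theorem chn_le (W : Submodule ℂ (σ → ℂ)) {Γ : Set (σ → ℂ)} (h : (0 : σ → ℂ) ∈ Γ) (S : ℕ)
    (P : MvPolynomial σ ℂ) (j : ℕ) : chn κ W Γ S P j ≤ chn κ W Γ S P (j + 1) :=
  (le_TL κ h _).trans (le_DW κ W _ S)

theorem chn_mono (W : Submodule ℂ (σ → ℂ)) {Γ : Set (σ → ℂ)} (h : (0 : σ → ℂ) ∈ Γ) (S : ℕ)
    (P : MvPolynomial σ ℂ) : Monotone (chn κ W Γ S P) :=
  monotone_nat_of_le_succ (chn_le κ W h S P)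

theorem chn_box {T : σ → ℕ} (W : Submodule ℂ (σ → ℂ)) (Γ : Set (σ → ℂ)) (S : ℕ)
    {P : MvPolynomial σ ℂ} (hP : P ∈ box T) : ∀ j, chn κ W Γ S P j ≤ box T
  | 0 => by
    rw [chn, Submodule.span_le]
    intro f hf
    rw [Set.mem_singleton_iff.1 hf]
    exact hP
  | (j + 1) => DW_box κ W (TL_box κ Γ (chn_box W Γ S hP j)) S

/-- the primes over `L` without multiplicative variables -/
def PP (L : Submodule ℂ (MvPolynomial σ ℂ)) : Set (PrimeSpectrum (MvPolynomial σ ℂ)) :=
  {p | (∀ f ∈ L, f ∈ p.asIdeal) ∧ ∀ i, κ i = true → X i ∉ p.asIdeal}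

/-- the translation as a ring isomorphism -/
noncomputable def trE (g : σ → ℂ) : MvPolynomial σ ℂ ≃+* MvPolynomial σ ℂ where
  toFun := tr κ g
  invFun := tr κ (-g)
  left_inv := fun f => by rw [tr_tr, neg_add_cancel, tr_zero]
  right_inv := fun f => by rw [tr_tr, add_neg_cancel, tr_zero]
  map_mul' := fun a b => map_mul _ a b
  map_add' := fun a b => map_add _ a b

/-- pull back of a prime by a translation: `{f | tr g f ∈ p}` -/
noncomputable def pb (g : σ → ℂ) (p : PrimeSpectrum (MvPolynomial σ ℂ)) :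
    PrimeSpectrum (MvPolynomial σ ℂ) :=
  (PrimeSpectrum.comapEquiv (trE κ g)).symm p

theorem mem_pb (g : σ → ℂ) (p : PrimeSpectrum (MvPolynomial σ ℂ)) (f : MvPolynomial σ ℂ) :
    f ∈ (pb κ g p).asIdeal ↔ tr κ g f ∈ p.asIdeal := Iff.rfl

theorem coheight_pb (g : σ → ℂ) (p : PrimeSpectrum (MvPolynomial σ ℂ)) :
    Order.coheight (pb κ g p) = Order.coheight p :=
  Order.coheight_orderIso _ _

/-- the point at the origin as a prime -/
noncomputable def orig : PrimeSpectrum (MvPolynomial σ ℂ) :=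
  ⟨RingHom.ker (eval (pt κ (0 : σ → ℂ))), RingHom.ker_isPrime _⟩

theorem orig_mem {L : Submodule ℂ (MvPolynomial σ ℂ)} (h : ∀ f ∈ L, eval (pt κ 0) f = 0) :
    orig κ ∈ PP κ L := by
  refine ⟨fun f hf => h f hf, fun i hi hX => ?_⟩
  have h1 : eval (pt κ (0 : σ → ℂ)) (X i) = 0 := hX
  rw [eval_X] at h1
  simp [pt, hi] at h1

theorem coheight_le_card (p : PrimeSpectrum (MvPolynomial σ ℂ)) :
    Order.coheight p ≤ (Fintype.card σ : ℕ∞) := by
  have h1 : ((Order.coheight p : ℕ∞) : WithBot ℕ∞) ≤ ringKrullDim (MvPolynomial σ ℂ) :=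
    Order.coheight_le_krullDim p
  rw [MvPolynomial.ringKrullDim_of_isNoetherianRing, ringKrullDim_eq_zero_of_field, zero_add,
    Nat.card_eq_fintype_card] at h1
  exact_mod_cast h1

theorem coheight_lt_card {p : PrimeSpectrum (MvPolynomial σ ℂ)} {f : MvPolynomial σ ℂ}
    (hf : f ≠ 0) (hp : f ∈ p.asIdeal) : Order.coheight p < (Fintype.card σ : ℕ∞) := by
  have hbot : (⊥ : PrimeSpectrum (MvPolynomial σ ℂ)) < p := by
    rw [lt_iff_le_and_ne]
    refine ⟨bot_le, ?_⟩
    rintro rfl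
    exact hf (by simpa using hp)
  have h1 := Order.coheight_add_one_le hbot
  have h2 := coheight_le_card (⊥ : PrimeSpectrum (MvPolynomial σ ℂ))
  have h3 := h1.trans h2
  have h4 : Order.coheight p ≠ ⊤ := by
    intro h
    rw [h] at h3
    simp at h3
  exact lt_of_lt_of_le (ENat.lt_add_one_iff h4 |>.2 le_rfl) h3

/-- a prime without multiplicative variables has a zero on the group -/
theorem exists_zero (p : PrimeSpectrum (MvPolynomial σ ℂ)) (h : ∀ i, κ i = true → X i ∉ p.asIdeal) :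
    ∃ g : σ → ℂ, ∀ f ∈ p.asIdeal, eval (pt κ g) f = 0 := by
  classical
  have hp := p.2
  let F : MvPolynomial σ ℂ := ∏ i ∈ Finset.univ.filter (fun i => κ i = true), X i
  have hF : F ∉ p.asIdeal := by
    intro hF
    rw [Ideal.IsPrime.prod_mem_iff] at hF
    obtain ⟨i, hi, hX⟩ := hF
    exact h i (Finset.mem_filter.1 hi).2 hX
  have hrad : p.asIdeal.radical = p.asIdeal := hp.isRadical.radical
  rw [← hrad, ← vanishingIdeal_zeroLocus_eq_radical (K := ℂ)] at hF
  rw [mem_vanishingIdeal_iff] at hF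
  push Not at hF
  obtain ⟨a, ha, hFa⟩ := hF
  rw [mem_zeroLocus_iff] at ha
  refine ⟨fun i => if κ i then Complex.log (a i) else a i, fun f hf => ?_⟩
  have hpt : pt κ (fun i => if κ i then Complex.log (a i) else a i) = a := by
    funext i
    by_cases hi : κ i = true
    · have hai : a i ≠ 0 := by
        intro h0
        apply hFa
        simp only [F, map_prod, aeval_X]
        exact Finset.prod_eq_zero (Finset.mem_filter.2 ⟨Finset.mem_univ i, hi⟩) h0
      simp [pt, hi, Complex.exp_log hai]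
    · simp [pt, hi]
  rw [hpt]
  have := ha f hf
  simpa [MvPolynomial.coe_aeval_eq_eval] using this

end

theorem chnT : T_CHN := by
  classical
  intro σ _ _ κ T W Γ S P h0 hP hPT hev
  set n := Fintype.card σ with hn
  -- the dimensions
  let D : ℕ → Set ℕ := fun j => {d | ∃ p ∈ PP κ (chn κ W Γ S P j), Order.coheight p = (d : ℕ∞)}
  have hval : ∀ p : PrimeSpectrum (MvPolynomial σ ℂ), ∃ d : ℕ, d ≤ n ∧ Order.coheight p = (d : ℕ∞) := by
    intro p
    have h1 := coheight_le_card p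
    obtain ⟨d, hd⟩ := ENat.ne_top_iff_exists.1 (ne_top_of_le_ne_top (ENat.natCast_ne_top n) h1)
    refine ⟨d, ?_, hd.symm⟩
    rw [← hd] at h1
    exact_mod_cast h1
  have hbdd : ∀ j, BddAbove (D j) := by
    intro j
    refine ⟨n, ?_⟩
    rintro d ⟨p, -, hp⟩
    have h1 := coheight_le_card p
    rw [hp] at h1
    exact_mod_cast h1
  have hmem0 : ∀ j ≤ n, orig κ ∈ PP κ (chn κ W Γ S P j) := by
    intro j hj
    exact orig_mem κ fun f hf => hev f (chn_mono κ W h0 S P hj hf)
  have hne : ∀ j ≤ n, (D j).Nonempty := by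
    intro j hj
    obtain ⟨d, -, hd⟩ := hval (orig κ)
    exact ⟨d, orig κ, hmem0 j hj, hd⟩
  let δ : ℕ → ℕ := fun j => sSup (D j)
  have hδmem : ∀ j ≤ n, δ j ∈ D j := fun j hj => Nat.sSup_mem (hne j hj) (hbdd j)
  have hδmax : ∀ j, ∀ p ∈ PP κ (chn κ W Γ S P j), Order.coheight p ≤ (δ j : ℕ∞) := by
    intro j p hp
    obtain ⟨d, -, hd⟩ := hval p
    rw [hd]
    exact_mod_cast le_csSup (hbdd j) ⟨p, hp, hd⟩
  have hanti : ∀ j, j + 1 ≤ n → δ (j + 1) ≤ δ j := by
    intro j hj
    obtain ⟨p, hp, hd⟩ := hδmem (j + 1) hj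
    have h1 : p ∈ PP κ (chn κ W Γ S P j) :=
      ⟨fun f hf => hp.1 f (chn_le κ W h0 S P j hf), hp.2⟩
    have h2 := hδmax j p h1
    rw [hd] at h2
    exact_mod_cast h2
  have hδ0 : δ 0 < n := by
    obtain ⟨p, hp, hd⟩ := hδmem 0 (Nat.zero_le _)
    have hPp : P ∈ p.asIdeal := hp.1 P (Submodule.subset_span rfl)
    have h1 := coheight_lt_card hP hPp
    rw [hd] at h1
    exact_mod_cast h1
  obtain ⟨j, hj, hjj⟩ : ∃ j < n, δ (j + 1) = δ j := by
    by_contra hcon
    push Not at hcon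
    have h1 : ∀ j ≤ n, δ j + j ≤ δ 0 := by
      intro j
      induction j with
      | zero => intro _; simp
      | succ j ih =>
        intro hj
        have h2 := ih (by omega)
        have h3 := hanti j hj
        have h4 := hcon j (by omega)
        omega
    have := h1 n le_rfl
    omega
  obtain ⟨p, hp, hpd⟩ := hδmem (j + 1) hj
  let N : Submodule ℂ (MvPolynomial σ ℂ) := (p.asIdeal.restrictScalars ℂ) ⊓ box T
  have hN : ∀ f, f ∈ N ↔ f ∈ p.asIdeal ∧ f ∈ box T := fun f => Iff.rfl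
  have hcN : chn κ W Γ S P (j + 1) ≤ N := fun f hf =>
    ⟨hp.1 f hf, chn_box κ W Γ S hPT (j + 1) hf⟩
  refine ⟨j, hj, N, inf_le_right, hcN, ?_, ?_⟩
  · -- finitely many cosets
    let I : Ideal (MvPolynomial σ ℂ) := Ideal.span (chn κ W Γ S P j : Set (MvPolynomial σ ℂ))
    have hfin : (I.minimalPrimes).Finite := Ideal.finite_minimalPrimes_of_isNoetherianRing _ I
    have hmin : ∀ g ∈ sig κ (chn κ W Γ S P j) N, (pb κ g p).asIdeal ∈ I.minimalPrimes := by
      intro g hg
      have hle : I ≤ (pb κ g p).asIdeal := by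
        rw [Ideal.span_le]
        intro f hf
        rw [SetLike.mem_coe, mem_pb]
        exact ((hN _).1 (hg f hf)).1
      have hX : ∀ i, κ i = true → X i ∉ (pb κ g p).asIdeal := by
        intro i hi hXi
        rw [mem_pb, tr_X, if_pos hi] at hXi
        have h1 : X i ∈ p.asIdeal := by
          have h2 := Ideal.mul_mem_left p.asIdeal (C (Complex.exp (-(g i)))) hXi
          rw [← mul_assoc, ← C_mul, ← Complex.exp_add, neg_add_cancel, Complex.exp_zero, C_1,
            one_mul] at h2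
          exact h2
        exact hp.2 i hi h1
      refine ⟨⟨(pb κ g p).2, hle⟩, ?_⟩
      rintro q ⟨hq, hIq⟩ hqp
      by_contra hnle
      let q' : PrimeSpectrum (MvPolynomial σ ℂ) := ⟨q, hq⟩
      have hlt : q' < pb κ g p := lt_of_le_not_ge hqp hnle
      have hq' : q' ∈ PP κ (chn κ W Γ S P j) :=
        ⟨fun f hf => hIq (Ideal.subset_span hf), fun i hi h => hX i hi (hqp h)⟩
      have h1 := hδmax j q' hq'
      have h2 := Order.coheight_add_one_le hlt
      rw [coheight_pb, hpd, hjj] at h2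
      have h3 := h2.trans h1
      have h4 : δ j + 1 ≤ δ j := by exact_mod_cast h3
      omega
    -- representatives
    let rep : Ideal (MvPolynomial σ ℂ) → (σ → ℂ) := fun q =>
      if h : ∃ g ∈ sig κ (chn κ W Γ S P j) N, (pb κ g p).asIdeal = q then h.choose else 0
    refine ⟨hfin.toFinset.image rep, fun g hg => ?_⟩
    have hex : ∃ g' ∈ sig κ (chn κ W Γ S P j) N, (pb κ g' p).asIdeal = (pb κ g p).asIdeal :=
      ⟨g, hg, rfl⟩
    refine ⟨rep (pb κ g p).asIdeal, Finset.mem_image_of_mem _ (hfin.mem_toFinset.2 (hmin g hg)), ?_⟩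
    have hrep : rep (pb κ g p).asIdeal = hex.choose := dif_pos hex
    have hsp := hex.choose_spec
    rw [← hrep] at hsp
    set z := rep (pb κ g p).asIdeal with hz
    intro f hf
    rw [hN] at hf ⊢
    refine ⟨?_, tr_box κ _ f hf.2⟩
    have h1 : tr κ (-z) f ∈ (pb κ z p).asIdeal := by
      rw [mem_pb, tr_tr, add_neg_cancel, tr_zero]
      exact hf.1
    rw [hsp.2, mem_pb, tr_tr, ← sub_eq_add_neg] at h1
    exact h1
  · intro huniv
    obtain ⟨h, hh⟩ := exists_zero κ p hp.2
    have hPN : P ∈ N := hcN (chn_mono κ W h0 S P (Nat.zero_le _) (Submodule.subset_span rfl))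
    have hall : ∀ g : σ → ℂ, eval (pt κ g) P = 0 := by
      intro g
      have hg : g - h ∈ stab κ N := by rw [huniv]; trivial
      have h1 := hh _ ((hN _).1 (hg P hPN)).1
      rw [eval_tr, sub_add_cancel] at h1
      exact h1
    -- P vanishes on the group
    apply hP
    have h2 : P * ∏ i, X i = 0 := by
      apply MvPolynomial.funext
      intro a
      rw [map_mul, map_prod, map_zero]
      simp only [eval_X]
      by_cases ha : ∀ i, a i ≠ 0
      · have hpt : pt κ (fun i => if κ i then Complex.log (a i) else a i) = a := by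
          funext i
          by_cases hi : κ i = true
          · simp [pt, hi, Complex.exp_log (ha i)]
          · simp [pt, hi]
        have h3 := hall (fun i => if κ i then Complex.log (a i) else a i)
        rw [hpt] at h3
        rw [h3, zero_mul]
      · push Not at ha
        obtain ⟨i, hi⟩ := ha
        rw [Finset.prod_eq_zero (Finset.mem_univ i) hi, mul_zero]
    rcases mul_eq_zero.1 h2 with h3 | h3
    · exact h3
    · rw [Finset.prod_eq_zero_iff] at h3
      obtain ⟨i, -, hi⟩ := h3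
      exact absurd hi (X_ne_zero i)

end Pool.Agent.H35.HR
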