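import Pool.Agent.H72.HR.CAL

/-!
Module COM of MP_3cf473_nt (HR): comultiplication applied to a functional.
-/

open MvPolynomial Module

namespace Pool.Agent.H35.HR

open Pool.Agent.H72.HR

section
variable {σ : Type} [Fintype σ] [DecidableEq σ]

/-- apply a functional to the coefficients -/
noncomputable def hat (φ : MvPolynomial σ ℂ →ₗ[ℂ] ℂ) (F : MvPolynomial σ (MvPolynomial σ ℂ)) :
    MvPolynomial σ ℂ := ∑ m ∈ F.support, monomial m (φ (coeff m F))

theorem coeff_hat (φ : MvPolynomial σ ℂ →ₗ[ℂ] ℂ) (F : MvPolynomial σ (MvPolynomial σ ℂ))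
    (m : σ →₀ ℕ) : coeff m (hat φ F) = φ (coeff m F) := by
  classical
  rw [hat, coeff_sum]
  simp only [coeff_monomial]
  rw [Finset.sum_ite_eq' F.support m (fun n => φ (coeff n F))]
  split_ifs with h
  · rfl
  · rw [notMem_support_iff.1 h, map_zero]

theorem hat_add (φ : MvPolynomial σ ℂ →ₗ[ℂ] ℂ) (F G : MvPolynomial σ (MvPolynomial σ ℂ)) :
    hat φ (F + G) = hat φ F + hat φ G := by
  ext m
  rw [coeff_add, coeff_hat, coeff_hat, coeff_hat, coeff_add, map_add]

theorem hat_smul (φ : MvPolynomial σ ℂ →ₗ[ℂ] ℂ) (c : ℂ) (F : MvPolynomial σ (MvPolynomial σ ℂ)) :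
    hat φ (c • F) = c • hat φ F := by
  ext m
  rw [coeff_smul, coeff_hat, coeff_hat, coeff_smul, map_smul]

theorem hat_sum {ι : Type} (φ : MvPolynomial σ ℂ →ₗ[ℂ] ℂ) (s : Finset ι)
    (F : ι → MvPolynomial σ (MvPolynomial σ ℂ)) :
    hat φ (∑ i ∈ s, F i) = ∑ i ∈ s, hat φ (F i) := by
  classical
  induction s using Finset.induction_on with
  | empty =>
    ext m
    simp [coeff_hat]
  | insert a s ha ih => rw [Finset.sum_insert ha, Finset.sum_insert ha, hat_add, ih]

theorem hat_map (φ : MvPolynomial σ ℂ →ₗ[ℂ] ℂ) (a : MvPolynomial σ ℂ) (G : MvPolynomial σ ℂ) :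
    hat φ (C a * map (C : ℂ →+* MvPolynomial σ ℂ) G) = φ a • G := by
  ext m
  rw [coeff_hat, coeff_C_mul, coeff_map, coeff_smul, mul_comm, ← MvPolynomial.smul_eq_C_mul,
    map_smul, smul_eq_mul, smul_eq_mul, mul_comm]

variable (κ : σ → Bool)

/-- the comultiplication -/
noncomputable def Dl : MvPolynomial σ ℂ →ₐ[ℂ] MvPolynomial σ (MvPolynomial σ ℂ) :=
  aeval fun i => if κ i then C (X i) * X i else C (X i) + X i

theorem Dl_X (i : σ) : Dl κ (X i) = if κ i then C (X i) * X i else C (X i) + X i := by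
  rw [Dl, aeval_X]

theorem Dl_C (a : ℂ) : Dl κ (C a) = C (C a) := by
  have := (Dl κ).commutes a
  rw [MvPolynomial.algebraMap_eq] at this
  rw [this]
  rfl

/-- the outer derivation -/
noncomputable def DO (v : σ → ℂ) :
    Derivation (MvPolynomial σ ℂ) (MvPolynomial σ (MvPolynomial σ ℂ))
      (MvPolynomial σ (MvPolynomial σ ℂ)) :=
  mkDerivation (MvPolynomial σ ℂ) fun i => if κ i then C (C (v i)) * X i else C (C (v i))

theorem DO_X (v : σ → ℂ) (i : σ) :
    DO κ v (X i) = if κ i then C (C (v i)) * X i else C (C (v i)) := by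
  simp [DO, mkDerivation_X]

theorem DO_C (v : σ → ℂ) (a : MvPolynomial σ ℂ) : DO κ v (C a) = 0 := by
  simp [DO]

theorem DO_Dl (v : σ → ℂ) (f : MvPolynomial σ ℂ) : Dl κ (dv κ v f) = DO κ v (Dl κ f) := by
  induction f using MvPolynomial.induction_on with
  | C a => rw [dv_C, map_zero, Dl_C, DO_C]
  | add p q hp hq => simp only [map_add, hp, hq]
  | mul_X p i hp =>
    rw [Derivation.leibniz, map_mul (Dl κ) p (X i), Derivation.leibniz, ← hp]
    simp only [smul_eq_mul, map_add, map_mul]
    have hX : Dl κ (dv κ v (X i)) = DO κ v (Dl κ (X i)) := by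
      by_cases hi : κ i
      · simp only [dv_X, Dl_X, hi, if_true, map_mul, Dl_C, Derivation.leibniz, DO_C, DO_X,
          smul_eq_mul, mul_zero, add_zero]
        ring
      · simp only [dv_X, Dl_X, hi, Bool.false_eq_true, if_false, Dl_C, map_add, DO_C, DO_X,
          zero_add]
    rw [hX]

theorem DO_map (v : σ → ℂ) (G : MvPolynomial σ ℂ) :
    DO κ v (map (C : ℂ →+* MvPolynomial σ ℂ) G) = map (C : ℂ →+* MvPolynomial σ ℂ) (dv κ v G) := by
  induction G using MvPolynomial.induction_on with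
  | C a => rw [map_C, DO_C, dv_C, map_zero]
  | add p q hp hq => simp only [map_add, hp, hq]
  | mul_X p i hp =>
    rw [map_mul, Derivation.leibniz, Derivation.leibniz, hp, map_X]
    simp only [smul_eq_mul, map_add, map_mul, map_X]
    have hX : DO κ v (X i) = map (C : ℂ →+* MvPolynomial σ ℂ) (dv κ v (X i)) := by
      by_cases hi : κ i
      · simp only [dv_X, DO_X, hi, if_true, map_mul, map_C, map_X]
      · simp only [dv_X, DO_X, hi, Bool.false_eq_true, if_false, map_C]
    rw [hX]

theorem hat_DO (φ : MvPolynomial σ ℂ →ₗ[ℂ] ℂ) (v : σ → ℂ)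
    (F : MvPolynomial σ (MvPolynomial σ ℂ)) : hat φ (DO κ v F) = dv κ v (hat φ F) := by
  have hmon : ∀ (m : σ →₀ ℕ) (a : MvPolynomial σ ℂ),
      hat φ (DO κ v (monomial m a)) = dv κ v (hat φ (monomial m a)) := by
    intro m a
    have h1 : (monomial m a : MvPolynomial σ (MvPolynomial σ ℂ)) =
        C a * map (C : ℂ →+* MvPolynomial σ ℂ) (monomial m 1) := by
      rw [map_monomial, C_mul_monomial, C_1, mul_one]
    rw [h1, Derivation.leibniz, DO_C, smul_zero, add_zero, smul_eq_mul, DO_map, hat_map, hat_map]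
    rw [Derivation.map_smul]
  rw [F.as_sum, map_sum, hat_sum, hat_sum, map_sum]
  exact Finset.sum_congr rfl fun m _ => hmon m _

theorem eval_hat (φ : MvPolynomial σ ℂ →ₗ[ℂ] ℂ) (x : σ → ℂ)
    (F : MvPolynomial σ (MvPolynomial σ ℂ)) :
    eval x (hat φ F) = φ (eval (fun i => C (x i)) F) := by
  have hmon : ∀ (m : σ →₀ ℕ) (a : MvPolynomial σ ℂ),
      eval x (hat φ (monomial m a)) = φ (eval (fun i => C (x i)) (monomial m a)) := by
    intro m a
    have h1 : (monomial m a : MvPolynomial σ (MvPolynomial σ ℂ)) =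
        C a * map (C : ℂ →+* MvPolynomial σ ℂ) (monomial m 1) := by
      rw [map_monomial, C_mul_monomial, C_1, mul_one]
    have h2 : eval (fun i => (C (x i) : MvPolynomial σ ℂ))
        (map (C : ℂ →+* MvPolynomial σ ℂ) (monomial m 1)) = C (eval x (monomial m 1)) := by
      rw [eval_map]
      have := MvPolynomial.eval₂_comp_left (C : ℂ →+* MvPolynomial σ ℂ) (RingHom.id ℂ) x
        (monomial m (1 : ℂ))
      rw [RingHom.comp_id] at this
      exact this.symm
    have h3 : eval x (hat φ (C a * map (C : ℂ →+* MvPolynomial σ ℂ) (monomial m 1))) =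
        φ a * eval x (monomial m (1 : ℂ)) := by
      rw [hat_map, MvPolynomial.smul_eq_C_mul, map_mul, eval_C]
    have h4 : eval (fun i => (C (x i) : MvPolynomial σ ℂ))
        (C a * map (C : ℂ →+* MvPolynomial σ ℂ) (monomial m 1)) =
        (eval x (monomial m (1 : ℂ))) • a := by
      rw [map_mul, eval_C, h2, mul_comm a, ← MvPolynomial.smul_eq_C_mul]
    rw [h1, h3, h4, map_smul, smul_eq_mul, mul_comm]
  rw [F.as_sum, hat_sum, map_sum, map_sum, map_sum]
  exact Finset.sum_congr rfl fun m _ => hmon m _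

theorem eval_Dl (g : σ → ℂ) (f : MvPolynomial σ ℂ) :
    eval (fun i => (C (pt κ g i) : MvPolynomial σ ℂ)) (Dl κ f) = tr κ g f := by
  induction f using MvPolynomial.induction_on with
  | C a => rw [Dl_C, eval_C, tr_C]
  | add p q hp hq => simp only [map_add, hp, hq]
  | mul_X p i hp =>
    have hX : eval (fun i => (C (pt κ g i) : MvPolynomial σ ℂ)) (Dl κ (X i)) = tr κ g (X i) := by
      by_cases hi : κ i
      · rw [Dl_X, tr_X, if_pos hi, if_pos hi, map_mul, eval_C, eval_X, mul_comm]
        simp [pt, hi]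
      · rw [Dl_X, tr_X, if_neg hi, if_neg hi, map_add, eval_C, eval_X]
        simp [pt, hi]
    rw [map_mul, map_mul, map_mul, hp, hX]

theorem Dl_degree {T : σ → ℕ} {f : MvPolynomial σ ℂ} (hf : f ∈ box T) (i : σ) :
    degreeOf i (Dl κ f) ≤ T i := by
  classical
  have hX : ∀ j, degreeOf i (Dl κ (X j)) ≤ if i = j then 1 else 0 := by
    intro j
    have hXX : degreeOf i (X j : MvPolynomial σ (MvPolynomial σ ℂ)) = if i = j then 1 else 0 := by
      rw [MvPolynomial.degreeOf_X]
    rw [Dl_X]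
    split_ifs with h2 h3 h3
    · exact (degreeOf_C_mul_le _ _ _).trans (by rw [hXX]; simp [h3])
    · exact (degreeOf_C_mul_le _ _ _).trans (by rw [hXX]; simp [h3])
    · refine (degreeOf_add_le _ _ _).trans ?_
      rw [hXX, degreeOf_C]; simp [h3]
    · refine (degreeOf_add_le _ _ _).trans ?_
      rw [hXX, degreeOf_C]; simp [h3]
  have hprod : ∀ (s : Finset σ) (e : σ → ℕ),
      degreeOf i (∏ j ∈ s, Dl κ (X j) ^ e j) ≤ ∑ j ∈ s, e j * (if i = j then 1 else 0) := by
    intro s e
    induction s using Finset.induction_on with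
    | empty => simp
    | insert a s ha ih =>
      rw [Finset.prod_insert ha, Finset.sum_insert ha]
      refine (degreeOf_mul_le _ _ _).trans (Nat.add_le_add ?_ ih)
      exact (degreeOf_pow_le _ _ _).trans (Nat.mul_le_mul_left _ (hX a))
  rw [f.as_sum, map_sum]
  refine (degreeOf_sum_le _ _ _).trans ?_
  rw [Finset.sup_le_iff]
  intro m hm
  have hmT : m i ≤ T i := (MvPolynomial.degreeOf_le_iff.1 (mem_box.1 hf i)) m hm
  rw [monomial_eq, map_mul, Dl_C]
  refine (degreeOf_C_mul_le _ _ _).trans ?_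
  rw [Finsupp.prod_fintype _ _ (fun i => pow_zero _), map_prod]
  simp only [map_pow]
  refine (hprod Finset.univ m).trans ?_
  simpa using hmT

end

theorem com : T_COM := by
  classical
  intro σ _ _ κ φ
  refine ⟨{ toFun := fun f => hat φ (Dl κ f)
            map_add' := fun f g => by rw [map_add, hat_add]
            map_smul' := fun c f => by rw [map_smul, hat_smul, RingHom.id_apply] }, ?_, ?_, ?_⟩
  · intro T f hf
    rw [mem_box]
    intro i
    show degreeOf i (hat φ (Dl κ f)) ≤ T i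
    rw [degreeOf_le_iff]
    intro m hm
    have h1 : m ∈ (Dl κ f).support := by
      rw [MvPolynomial.mem_support_iff] at hm ⊢
      intro h0
      apply hm
      rw [coeff_hat, h0, map_zero]
    exact (degreeOf_le_iff.1 (Dl_degree κ hf i)) m h1
  · intro f g
    show eval (pt κ g) (hat φ (Dl κ f)) = φ (tr κ g f)
    rw [eval_hat, eval_Dl]
  · intro v f
    show hat φ (Dl κ (dv κ v f)) = dv κ v (hat φ (Dl κ f))
    rw [DO_Dl, hat_DO]

end Pool.Agent.H35.HR
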