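import Pool.Agent.H72.HR.CAL
import Pool.Agent.H30.BF.EXPU

/-!
Module STR of MP_3cf473_nt (HR): structure of the stabiliser of a space of polynomials.
-/

open MvPolynomial Module

namespace Pool.Agent.H35.HR

open Pool.Agent.H72.HR

section
variable {σ : Type} [Fintype σ] [DecidableEq σ] (κ : σ → Bool)

/-- additive part of a vector -/
def ad (g : σ → ℂ) : σ → ℂ := fun i => if κ i then 0 else g i

/-- multiplicative part of a vector -/
def mu (g : σ → ℂ) : σ → ℂ := fun i => if κ i then g i else 0

theorem ad_add_mu (g : σ → ℂ) : ad κ g + mu κ g = g := by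
  funext i
  by_cases h : κ i <;> simp [ad, mu, h]

theorem ad_smul (t : ℂ) (g : σ → ℂ) : ad κ (t • g) = t • ad κ g := by
  funext i
  by_cases h : κ i <;> simp [ad, h]

theorem ad_ad (g : σ → ℂ) : ad κ (ad κ g) = ad κ g := by
  funext i
  by_cases h : κ i <;> simp [ad, h]

/-- exponent of the character attached to a monomial -/
noncomputable def ze (m : σ →₀ ℕ) (g : σ → ℂ) : ℂ := Complex.exp (∑ i, (m i : ℂ) * mu κ g i)

theorem ze_ne (m : σ →₀ ℕ) (g : σ → ℂ) : ze κ m g ≠ 0 := Complex.exp_ne_zero _

theorem ze_nsmul (m : σ →₀ ℕ) (g : σ → ℂ) (n : ℕ) : ze κ m ((n : ℂ) • g) = ze κ m g ^ n := by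
  rw [ze, ze, ← Complex.exp_nat_mul]
  congr 1
  rw [Finset.mul_sum]
  refine Finset.sum_congr rfl fun i _ => ?_
  by_cases h : κ i <;> simp [mu, h]
  ring

/-- translation of a monomial -/
theorem tr_monomial (g : σ → ℂ) (m : σ →₀ ℕ) (a : ℂ) :
    tr κ g (monomial m a) = ze κ m g • tr κ (ad κ g) (monomial m a) := by
  rw [monomial_eq, map_mul, map_mul, tr_C, tr_C, Finsupp.prod_fintype _ _ (fun i => pow_zero _),
    map_prod, map_prod]
  have h1 : ∀ i, tr κ g (X i ^ m i) =
      C (Complex.exp ((m i : ℂ) * mu κ g i)) * tr κ (ad κ g) (X i ^ m i) := by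
    intro i
    rw [map_pow, map_pow, tr_X, tr_X]
    by_cases h : κ i
    · simp only [h, if_true, mul_pow, ad, mu, Complex.exp_zero, C_1, one_mul]
      rw [← C_pow, ← Complex.exp_nat_mul]
    · simp [h, ad, mu]
  simp_rw [h1]
  rw [Finset.prod_mul_distrib, ze, Complex.exp_sum, MvPolynomial.smul_eq_C_mul, map_prod]
  ring

/-- translations in an additive direction are polynomial in time -/
theorem tr_poly (h : σ → ℂ) (f : MvPolynomial σ ℂ) :
    ∃ F : Polynomial (MvPolynomial σ ℂ), ∀ t : ℂ,
      tr κ (t • ad κ h) f = F.sum fun k a => t ^ k • a := by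
  let Ψ : MvPolynomial σ ℂ →ₐ[ℂ] Polynomial (MvPolynomial σ ℂ) :=
    aeval fun i => Polynomial.C (X i) + Polynomial.C (C (ad κ h i)) * Polynomial.X
  refine ⟨Ψ f, fun t => ?_⟩
  have h1 : ∀ f, tr κ (t • ad κ h) f = (Ψ f).eval (C t) := by
    intro f
    induction f using MvPolynomial.induction_on with
    | C a =>
      rw [tr_C]
      have : Ψ (C a) = Polynomial.C (C a) := by
        have := Ψ.commutes a
        rw [MvPolynomial.algebraMap_eq] at this
        rw [this]
        rfl
      rw [this, Polynomial.eval_C]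
    | add p q hp hq => rw [map_add, map_add, Polynomial.eval_add, hp, hq]
    | mul_X p i hp =>
      rw [map_mul, map_mul, Polynomial.eval_mul, hp]
      congr 1
      rw [tr_X]
      simp only [Ψ, aeval_X, Polynomial.eval_add, Polynomial.eval_mul, Polynomial.eval_C,
        Polynomial.eval_X]
      by_cases hi : κ i
      · simp [hi, ad]
      · simp only [hi, ad, Pi.smul_apply, smul_eq_mul, Bool.false_eq_true, if_false, C_mul]
        ring
  rw [h1, Polynomial.eval_eq_sum, Polynomial.sum_def, Polynomial.sum_def]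
  refine Finset.sum_congr rfl fun k _ => ?_
  rw [← C_pow, MvPolynomial.smul_eq_C_mul, mul_comm]

/-- the same after applying a linear functional -/
theorem tr_poly' (h : σ → ℂ) (f : MvPolynomial σ ℂ) (φ : MvPolynomial σ ℂ →ₗ[ℂ] ℂ) :
    ∃ Q : Polynomial ℂ, ∀ t : ℂ, φ (tr κ (t • ad κ h) f) = Q.eval t := by
  obtain ⟨F, hF⟩ := tr_poly κ h f
  refine ⟨F.sum fun k a => Polynomial.monomial k (φ a), fun t => ?_⟩
  rw [hF, Polynomial.sum_def, Polynomial.sum_def, map_sum, Polynomial.eval_finsetSum]
  refine Finset.sum_congr rfl fun k _ => ?_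
  rw [map_smul, smul_eq_mul, Polynomial.eval_monomial, mul_comm]

/-- the part of `f` on the monomials with a given value of `χ` -/
noncomputable def part {ι : Type} [DecidableEq ι] (χ : (σ →₀ ℕ) → ι) (c : ι)
    (f : MvPolynomial σ ℂ) : MvPolynomial σ ℂ :=
  ∑ m ∈ f.support with χ m = c, monomial m (coeff m f)

theorem sum_part {ι : Type} [DecidableEq ι] (χ : (σ →₀ ℕ) → ι) (f : MvPolynomial σ ℂ) :
    ∑ c ∈ f.support.image χ, part χ c f = f := by
  conv_rhs => rw [f.as_sum]
  rw [← Finset.sum_fiberwise_of_maps_to (s := f.support) (t := f.support.image χ) (g := χ)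
    (fun m hm => Finset.mem_image_of_mem _ hm)]
  rfl

theorem sum_part' {ι : Type} [DecidableEq ι] (χ : (σ →₀ ℕ) → ι) (f : MvPolynomial σ ℂ)
    (w : (σ →₀ ℕ) → ℂ) (w' : ι → ℂ) (hw : ∀ m ∈ f.support, w m = w' (χ m)) :
    ∑ m ∈ f.support, w m • monomial m (coeff m f) = ∑ c ∈ f.support.image χ, w' c • part χ c f := by
  rw [← Finset.sum_fiberwise_of_maps_to (s := f.support) (t := f.support.image χ) (g := χ)
    (fun m hm => Finset.mem_image_of_mem _ hm)]
  refine Finset.sum_congr rfl fun c _ => ?_
  rw [part, Finset.smul_sum]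
  refine Finset.sum_congr rfl fun m hm => ?_
  obtain ⟨h1, h2⟩ := Finset.mem_filter.1 hm
  rw [hw m h1, h2]

variable {κ}

theorem stab_zero (N : Submodule ℂ (MvPolynomial σ ℂ)) : (0 : σ → ℂ) ∈ stab κ N := by
  intro f hf
  rwa [tr_zero]

theorem stab_add {N : Submodule ℂ (MvPolynomial σ ℂ)} {g h : σ → ℂ} (hg : g ∈ stab κ N)
    (hh : h ∈ stab κ N) : g + h ∈ stab κ N := by
  intro f hf
  rw [← tr_tr]
  exact hg _ (hh f hf)

theorem stab_nsmul {N : Submodule ℂ (MvPolynomial σ ℂ)} {g : σ → ℂ} (hg : g ∈ stab κ N) (n : ℕ) :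
    ((n : ℂ) • g) ∈ stab κ N := by
  induction n with
  | zero => simpa using stab_zero N
  | succ n ih =>
    have := stab_add ih hg
    simpa [add_smul] using this

theorem stab_neg {N : Submodule ℂ (MvPolynomial σ ℂ)} [FiniteDimensional ℂ N] {g : σ → ℂ}
    (hg : g ∈ stab κ N) : -g ∈ stab κ N := by
  intro f hf
  let φ : N →ₗ[ℂ] N := (tr κ g).toLinearMap.restrict hg
  have hinj : Function.Injective φ := by
    intro a b hab
    have h1 : tr κ g a.1 = tr κ g b.1 := congrArg Subtype.val hab
    have h2 := congrArg (tr κ (-g)) h1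
    rw [tr_tr, tr_tr, neg_add_cancel, tr_zero, tr_zero] at h2
    exact Subtype.ext h2
  obtain ⟨a, ha⟩ := LinearMap.injective_iff_surjective.1 hinj ⟨f, hf⟩
  have h1 : tr κ g a.1 = f := congrArg Subtype.val ha
  rw [← h1, tr_tr, neg_add_cancel, tr_zero]
  exact a.2

/-- the parts for the values of a character, translated in the additive direction, stay in `N` -/
theorem part_mem {N : Submodule ℂ (MvPolynomial σ ℂ)} {g : σ → ℂ} (hg : g ∈ stab κ N)
    {f : MvPolynomial σ ℂ} (hf : f ∈ N) (t : ℂ) (ζ : ℂ) :
    tr κ (t • ad κ g) (part (fun m => ze κ m g) ζ f) ∈ N := by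
  classical
  by_contra hne
  obtain ⟨φ, hφ1, hφ2⟩ := Submodule.exists_le_ker_of_notMem hne
  choose Q hQ using fun c : ℂ => tr_poly' κ g (part (fun m => ze κ m g) c f) φ
  let Γ : Finset ℂ := f.support.image fun m => ze κ m g
  obtain ⟨e, he⟩ : ∃ e : ℕ, ∀ c ∈ Γ, (Q c).degree < e := by
    refine ⟨Γ.sup (fun c => (Q c).natDegree) + 1, fun c hc => ?_⟩
    refine lt_of_le_of_lt Polynomial.degree_le_natDegree ?_
    have := Finset.le_sup (f := fun c => (Q c).natDegree) hc
    exact_mod_cast Nat.lt_succ_of_le this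
  have h0 : (0 : ℂ) ∉ Γ := by
    intro h
    obtain ⟨m, -, hm⟩ := Finset.mem_image.1 h
    exact ze_ne κ m g hm
  have hz : ∀ c ∈ Γ, Q c = 0 := by
    refine Pool.Agent.H30.BF.expu Γ Q e h0 he ?_
    intro s _
    have h1 : φ (tr κ ((s : ℂ) • g) f) = 0 := hφ2 (stab_nsmul hg s f hf)
    have h2 : tr κ ((s : ℂ) • g) f =
        ∑ c ∈ Γ, c ^ s • tr κ ((s : ℂ) • ad κ g) (part (fun m => ze κ m g) c f) := by
      conv_lhs => rw [f.as_sum, map_sum]
      have h3 : ∀ m ∈ f.support, tr κ ((s : ℂ) • g) (monomial m (coeff m f)) =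
          tr κ ((s : ℂ) • ad κ g) (ze κ m g ^ s • monomial m (coeff m f)) := by
        intro m _
        rw [tr_monomial, ze_nsmul, ad_smul, map_smul]
      rw [Finset.sum_congr rfl h3, ← map_sum,
        sum_part' (fun m => ze κ m g) f (fun m => ze κ m g ^ s) (fun c => c ^ s) (fun m _ => rfl),
        map_sum]
      refine Finset.sum_congr rfl fun c _ => ?_
      rw [map_smul]
    rw [h2, map_sum] at h1
    rw [← h1]
    refine Finset.sum_congr rfl fun c _ => ?_
    rw [map_smul, hQ, smul_eq_mul, mul_comm]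
  apply hφ1
  rw [hQ]
  by_cases hζ : ζ ∈ Γ
  · rw [hz ζ hζ, Polynomial.eval_zero]
  · have hp : part (fun m => ze κ m g) ζ f = 0 := by
      rw [part]
      refine Finset.sum_eq_zero fun m hm => ?_
      obtain ⟨h1, h2⟩ := Finset.mem_filter.1 hm
      exact absurd (Finset.mem_image.2 ⟨m, h1, h2⟩) hζ
    rw [← hQ, hp, map_zero, map_zero]

theorem stab_ad {N : Submodule ℂ (MvPolynomial σ ℂ)} {g : σ → ℂ} (hg : g ∈ stab κ N) (t : ℂ) :
    t • ad κ g ∈ stab κ N := by
  classical
  intro f hf
  rw [← sum_part (fun m => ze κ m g) f, map_sum]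
  exact Submodule.sum_mem _ fun c _ => part_mem hg hf t c

theorem tr_mu (g : σ → ℂ) (f : MvPolynomial σ ℂ) :
    tr κ (mu κ g) f = ∑ m ∈ f.support, ze κ m g • monomial m (coeff m f) := by
  conv_lhs => rw [f.as_sum, map_sum]
  refine Finset.sum_congr rfl fun m _ => ?_
  rw [tr_monomial]
  have h1 : ad κ (mu κ g) = 0 := by
    funext i
    by_cases h : κ i <;> simp [ad, mu, h]
  have h2 : ze κ m (mu κ g) = ze κ m g := by
    rw [ze, ze]
    congr 1
    refine Finset.sum_congr rfl fun i _ => ?_
    by_cases h : κ i <;> simp [mu, h]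
  rw [h1, h2, tr_zero]

theorem stab_mu {N : Submodule ℂ (MvPolynomial σ ℂ)} {g : σ → ℂ} (hg : g ∈ stab κ N) :
    mu κ g ∈ stab κ N := by
  classical
  intro f hf
  rw [tr_mu, sum_part' (fun m => ze κ m g) f (fun m => ze κ m g) (fun c => c) (fun m _ => rfl)]
  refine Submodule.sum_mem _ fun c _ => Submodule.smul_mem _ _ ?_
  have := part_mem hg hf 0 c
  rwa [zero_smul, tr_zero] at this

end

theorem box_finite {σ : Type} [Fintype σ] [DecidableEq σ] (T : σ → ℕ) :
    FiniteDimensional ℂ (box T) := by
  have hfin : {m : σ →₀ ℕ | ∀ i, m i ≤ T i}.Finite := by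
    have h1 : {m : σ →₀ ℕ | ∀ i, m i ≤ T i} = Set.Iic (Finsupp.equivFunOnFinite.symm T) := by
      ext m
      constructor
      · intro h i
        exact h i
      · intro h i
        exact h i
    rw [h1]
    exact Set.finite_Iic _
  have : Finite {m : σ →₀ ℕ | ∀ i, m i ≤ T i} := hfin
  exact Module.Finite.of_basis (basisRestrictSupport ℂ {m : σ →₀ ℕ | ∀ i, m i ≤ T i})

theorem str : T_STR := by
  classical
  intro σ _ _ κ T N hN
  have hfd : FiniteDimensional ℂ N := by
    have := box_finite T
    exact Submodule.finiteDimensional_of_le hN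
  -- the additive part
  let L : Submodule ℂ (σ → ℂ) :=
    { carrier := {h | (∀ i, κ i = true → h i = 0) ∧ h ∈ stab κ N}
      add_mem' := by
        rintro a b ⟨ha1, ha2⟩ ⟨hb1, hb2⟩
        refine ⟨fun i hi => ?_, stab_add ha2 hb2⟩
        rw [Pi.add_apply, ha1 i hi, hb1 i hi, add_zero]
      zero_mem' := ⟨fun i _ => rfl, stab_zero N⟩
      smul_mem' := by
        rintro c a ⟨ha1, ha2⟩
        refine ⟨fun i hi => ?_, ?_⟩
        · rw [Pi.smul_apply, ha1 i hi, smul_zero]
        · have h1 := stab_ad ha2 c
          have h2 : ad κ a = a := by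
            funext i
            by_cases h : κ i
            · simp [ad, h, ha1 i h]
            · simp [ad, h]
          rwa [h2] at h1 }
  let St : AddSubgroup (σ → ℂ) :=
    { carrier := stab κ N
      add_mem' := fun ha hb => stab_add ha hb
      zero_mem' := stab_zero N
      neg_mem' := fun ha => stab_neg ha }
  let Θ : Set (σ → ℤ) := {u | (∀ i, κ i = false → u i = 0) ∧ (∀ i, |u i| ≤ T i) ∧
    ∀ g ∈ stab κ N, Complex.exp (∑ i, (u i : ℂ) * g i) = 1}
  refine ⟨L, Θ, ⟨fun g hg => hg.1, fun u hu => hu.1, fun u hu => hu.2.1⟩, ?_⟩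
  ext g
  constructor
  · intro hg
    refine ⟨⟨?_, ?_⟩, fun u hu => hu.2.2 g hg⟩
    · intro i hi
      simp [hi]
    · have := stab_ad hg 1
      rw [one_smul] at this
      exact this
  · rintro ⟨⟨-, h1⟩, h2⟩
    have h1' : ad κ g ∈ stab κ N := h1
    have hmu : mu κ g ∈ stab κ N := by
      intro f hf
      -- characters
      let χ : (σ →₀ ℕ) → (Multiplicative St →* ℂ) := fun m =>
        { toFun := fun s => ze κ m (Multiplicative.toAdd s : St).1
          map_one' := by
            simp [ze, mu]
          map_mul' := by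
            intro a b
            simp only [toAdd_mul, AddSubgroup.coe_add, ze]
            rw [← Complex.exp_add]
            congr 1
            rw [← Finset.sum_add_distrib]
            refine Finset.sum_congr rfl fun i _ => ?_
            by_cases h : κ i
            · simp [mu, h]; ring
            · simp [mu, h] }
      have hlin := linearIndependent_monoidHom (Multiplicative St) ℂ
      have hpart : ∀ c ∈ f.support.image χ, part χ c f ∈ N := by
        intro c hc
        by_contra hne
        obtain ⟨φ, hφ1, hφ2⟩ := Submodule.exists_le_ker_of_notMem hne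
        have hsum : ∑ c ∈ f.support.image χ, φ (part χ c f) • (c : Multiplicative St → ℂ) = 0 := by
          funext s
          have hs : (Multiplicative.toAdd s : St).1 ∈ stab κ N := (Multiplicative.toAdd s : St).2
          have h3 : φ (tr κ (mu κ (Multiplicative.toAdd s : St).1) f) = 0 := hφ2 (stab_mu hs f hf)
          rw [tr_mu, sum_part' χ f (fun m => ze κ m (Multiplicative.toAdd s : St).1)
            (fun c => c s) (fun m _ => rfl), map_sum] at h3
          rw [Finset.sum_apply, Pi.zero_apply, ← h3]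
          refine Finset.sum_congr rfl fun c _ => ?_
          rw [Pi.smul_apply, map_smul, smul_eq_mul, smul_eq_mul, mul_comm]
        have h4 := linearIndependent_iff'.1 hlin (f.support.image χ) (fun c => φ (part χ c f)) hsum
        exact hφ1 (h4 c hc)
      -- on the classes, the character of g is constant
      have hcl : ∀ m ∈ f.support, ∀ m' ∈ f.support, χ m = χ m' → ze κ m g = ze κ m' g := by
        intro m hm m' hm' hχ
        let u : σ → ℤ := fun i => if κ i then (m i : ℤ) - m' i else 0
        have hu : u ∈ Θ := by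
          refine ⟨fun i hi => by simp [u, hi], fun i => ?_, fun g' hg' => ?_⟩
          · have h5 := (mem_box (T := T)).1 (hN hf) i
            have h6 : m i ≤ T i := (MvPolynomial.degreeOf_le_iff.1 h5) m hm
            have h7 : m' i ≤ T i := (MvPolynomial.degreeOf_le_iff.1 h5) m' hm'
            by_cases h : κ i
            · simp only [u, h, if_true]
              rw [abs_le]; constructor <;> omega
            · simp [u, h]
          · have h5 := congrArg (fun c : Multiplicative St →* ℂ =>
              c (Multiplicative.ofAdd (⟨g', hg'⟩ : St))) hχ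
            have h6 : ze κ m g' = ze κ m' g' := h5
            have h7 : Complex.exp (∑ i, (u i : ℂ) * g' i) = ze κ m g' / ze κ m' g' := by
              rw [ze, ze, ← Complex.exp_sub, ← Finset.sum_sub_distrib]
              congr 1
              refine Finset.sum_congr rfl fun i _ => ?_
              by_cases h : κ i
              · simp only [u, h, if_true, mu]
                push_cast
                ring
              · simp [u, h, mu]
            rw [h7, h6, div_self (ze_ne κ m' g')]
        have h5 := h2 u hu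
        have h7 : Complex.exp (∑ i, (u i : ℂ) * g i) = ze κ m g / ze κ m' g := by
          rw [ze, ze, ← Complex.exp_sub, ← Finset.sum_sub_distrib]
          congr 1
          refine Finset.sum_congr rfl fun i _ => ?_
          by_cases h : κ i
          · simp only [u, h, if_true, mu]
            push_cast
            ring
          · simp [u, h, mu]
        rw [h7] at h5
        exact (div_eq_one_iff_eq (ze_ne κ m' g)).1 h5
      let w' : (Multiplicative St →* ℂ) → ℂ := fun c =>
        if h : ∃ m ∈ f.support, χ m = c then ze κ h.choose g else 0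
      have hw' : ∀ m ∈ f.support, ze κ m g = w' (χ m) := by
        intro m hm
        have hex : ∃ m' ∈ f.support, χ m' = χ m := ⟨m, hm, rfl⟩
        simp only [w', dif_pos hex]
        exact hcl m hm _ hex.choose_spec.1 hex.choose_spec.2.symm
      rw [tr_mu, sum_part' χ f (fun m => ze κ m g) w' hw']
      exact Submodule.sum_mem _ fun c hc => Submodule.smul_mem _ _ (hpart c hc)
    have := stab_add h1' hmu
    rwa [ad_add_mu] at this

end Pool.Agent.H35.HR
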