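import Pool.Agent.H35.HR.ZE1
import Pool.Agent.H35.HR.STR
import Pool.Agent.H35.HR.CHN
import Pool.Agent.H35.HR.COM

/-!
Module ZE of MP_3cf473_nt (HR): the zero estimate.
-/

open MvPolynomial Module

namespace Pool.Agent.H35.HR

open Pool.Agent.H72.HR

section gen
variable {σ : Type} [Fintype σ] [DecidableEq σ] {κ : σ → Bool}

theorem Grp_sub {L : Submodule ℂ (σ → ℂ)} {Θ : Set (σ → ℤ)} {g h : σ → ℂ}
    (hg : g ∈ Grp κ L Θ) (hh : h ∈ Grp κ L Θ) : g - h ∈ Grp κ L Θ := by
  refine ⟨?_, fun u hu => ?_⟩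
  · have := L.sub_mem hg.1 hh.1
    convert this using 1
    funext i
    by_cases hi : κ i <;> simp [hi]
  · have : ∑ i, (u i : ℂ) * (g - h) i = ∑ i, (u i : ℂ) * g i - ∑ i, (u i : ℂ) * h i := by
      rw [← Finset.sum_sub_distrib]
      refine Finset.sum_congr rfl fun i _ => ?_
      rw [Pi.sub_apply]; ring
    rw [this, Complex.exp_sub, hg.2 u hu, hh.2 u hu, div_one]

theorem Grp_add {L : Submodule ℂ (σ → ℂ)} {Θ : Set (σ → ℤ)} {g h : σ → ℂ}
    (hg : g ∈ Grp κ L Θ) (hh : h ∈ Grp κ L Θ) : g + h ∈ Grp κ L Θ := by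
  refine ⟨?_, fun u hu => ?_⟩
  · have := L.add_mem hg.1 hh.1
    convert this using 1
    funext i
    by_cases hi : κ i <;> simp [hi]
  · have : ∑ i, (u i : ℂ) * (g + h) i = ∑ i, (u i : ℂ) * g i + ∑ i, (u i : ℂ) * h i := by
      rw [← Finset.sum_add_distrib]
      refine Finset.sum_congr rfl fun i _ => ?_
      rw [Pi.add_apply]; ring
    rw [this, Complex.exp_add, hg.2 u hu, hh.2 u hu, one_mul]

theorem Lie_le_Grp {L : Submodule ℂ (σ → ℂ)} {Θ : Set (σ → ℤ)} {g : σ → ℂ}
    (hg : g ∈ Lie κ L Θ) : g ∈ Grp κ L Θ :=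
  ⟨hg.1, fun u hu => by rw [hg.2 u hu, Complex.exp_zero]⟩

/-- the Lie algebra of the stabiliser acts on `N` by derivations -/
theorem dv_stay {N : Submodule ℂ (MvPolynomial σ ℂ)} {L : Submodule ℂ (σ → ℂ)}
    {Θ : Set (σ → ℤ)} (hst : stab κ N = Grp κ L Θ) {s : σ → ℂ} (hs : s ∈ Lie κ L Θ)
    {f : MvPolynomial σ ℂ} (hf : f ∈ N) : dv κ s f ∈ N := by
  by_contra hne
  obtain ⟨φ, hφ1, hφ2⟩ := Submodule.exists_le_ker_of_notMem hne
  obtain ⟨Hc, -, hev, hdv⟩ := com σ κ φ
  have h0 : ∀ t : ℂ, eval (pt κ (0 + t • s)) (Hc f) = 0 := by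
    intro t
    rw [hev]
    have h1 : 0 + t • s ∈ stab κ N := by
      rw [hst, zero_add]
      exact Lie_le_Grp ((Lie κ L Θ).smul_mem t hs)
    exact hφ2 (h1 f hf)
  have h1 := hasDerivAt_eval κ 0 s (Hc f) 0
  have h2 : (fun t : ℂ => eval (pt κ (0 + t • s)) (Hc f)) = fun _ => (0 : ℂ) := funext h0
  rw [h2] at h1
  have h3 := h1.unique (hasDerivAt_const (0 : ℂ) (0 : ℂ))
  rw [← hdv, hev, zero_smul, add_zero, tr_zero] at h3
  exact hφ1 h3

theorem iter_mem_DW {W : Submodule ℂ (σ → ℂ)} {L0 : Submodule ℂ (MvPolynomial σ ℂ)} {w : σ → ℂ}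
    (hw : w ∈ W) {f : MvPolynomial σ ℂ} (hf : f ∈ L0) :
    ∀ a, (dv κ w)^[a] f ∈ DW κ W L0 a
  | 0 => hf
  | (a + 1) => by
    rw [Function.iterate_succ_apply']
    exact Submodule.mem_sup_right (Submodule.subset_span ⟨w, hw, _, iter_mem_DW hw hf a, rfl⟩)

theorem DW_mono {W : Submodule ℂ (σ → ℂ)} {L0 : Submodule ℂ (MvPolynomial σ ℂ)} :
    Monotone (DW κ W L0) :=
  monotone_nat_of_le_succ fun _ => le_sup_left

theorem iter_sub (v : σ → ℂ) (m : ℕ) (f g : MvPolynomial σ ℂ) :
    (dv κ v)^[m] (f - g) = (dv κ v)^[m] f - (dv κ v)^[m] g := by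
  induction m generalizing f g with
  | zero => rfl
  | succ m ih => rw [Function.iterate_succ_apply, map_sub, ih]; rfl

theorem iter_add (v : σ → ℂ) (m : ℕ) (f g : MvPolynomial σ ℂ) :
    (dv κ v)^[m] (f + g) = (dv κ v)^[m] f + (dv κ v)^[m] g := by
  induction m generalizing f g with
  | zero => rfl
  | succ m ih => rw [Function.iterate_succ_apply, map_add, ih]; rfl

theorem iter_smul (v : σ → ℂ) (m : ℕ) (c : ℂ) (f : MvPolynomial σ ℂ) :
    (dv κ v)^[m] (c • f) = c • (dv κ v)^[m] f := by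
  induction m generalizing f with
  | zero => rfl
  | succ m ih => rw [Function.iterate_succ_apply, Derivation.map_smul, ih]; rfl

theorem iter_comm (v s : σ → ℂ) (m : ℕ) (f : MvPolynomial σ ℂ) :
    (dv κ v)^[m] (dv κ s f) = dv κ s ((dv κ v)^[m] f) := by
  induction m generalizing f with
  | zero => rfl
  | succ m ih =>
    rw [Function.iterate_succ_apply, dv_comm, ih, ← Function.iterate_succ_apply]

theorem iter_tr (v g : σ → ℂ) (m : ℕ) (f : MvPolynomial σ ℂ) :
    (dv κ v)^[m] (tr κ g f) = tr κ g ((dv κ v)^[m] f) := by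
  induction m generalizing f with
  | zero => rfl
  | succ m ih =>
    rw [Function.iterate_succ_apply, dv_tr, ih, ← Function.iterate_succ_apply]

theorem dv_sub' (v w : σ → ℂ) (f : MvPolynomial σ ℂ) :
    dv κ (v - w) f = dv κ v f - dv κ w f := by
  have h1 := dv_add κ (v - w) w f
  rw [sub_add_cancel] at h1
  rw [h1]; ring

/-- the derivatives stay in `N` -/
theorem iter_stay {N : Submodule ℂ (MvPolynomial σ ℂ)} {L : Submodule ℂ (σ → ℂ)}
    {Θ : Set (σ → ℤ)} (hst : stab κ N = Grp κ L Θ) {W : Submodule ℂ (σ → ℂ)}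
    {L0 : Submodule ℂ (MvPolynomial σ ℂ)} {S : ℕ} (hDN : DW κ W L0 S ≤ N)
    {w s : σ → ℂ} (hw : w ∈ W) (hs : s ∈ Lie κ L Θ) {f : MvPolynomial σ ℂ} (hf : f ∈ L0)
    (m : ℕ) : ∀ a, a + m ≤ S → (dv κ (w - s))^[m] ((dv κ w)^[a] f) ∈ N := by
  induction m with
  | zero =>
    intro a h
    have h1 : (dv κ w)^[a] f ∈ DW κ W L0 a := iter_mem_DW hw hf a
    have haS : a ≤ S := by omega
    have h2 : DW κ W L0 a ≤ DW κ W L0 S := DW_mono haS
    rw [Function.iterate_zero_apply]
    exact hDN (h2 h1)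
  | succ m ih =>
    intro a h
    have h1 : dv κ (w - s) ((dv κ w)^[a] f) =
        (dv κ w)^[a + 1] f - dv κ s ((dv κ w)^[a] f) := by
      rw [dv_sub', Function.iterate_succ_apply']
    rw [Function.iterate_succ_apply, h1, iter_sub, iter_comm]
    exact N.sub_mem (ih (a + 1) (by omega)) (dv_stay hst hs (ih a (by omega)))

end gen

section sl
variable {ρ τ : Type} [Fintype ρ] [Fintype τ] [DecidableEq ρ] [DecidableEq τ]

/-- extension of a vector by zero -/
noncomputable def ext (I : Finset ρ) (J : Finset τ) : (I ⊕ J → ℂ) →ₗ[ℂ] (ρ ⊕ τ → ℂ) where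
  toFun := fun a => Sum.elim (fun i => if h : i ∈ I then a (Sum.inl ⟨i, h⟩) else 0)
    (fun j => if h : j ∈ J then a (Sum.inr ⟨j, h⟩) else 0)
  map_add' := by
    intro a b
    funext x
    rcases x with i | j
    · by_cases h : i ∈ I <;> simp [h]
    · by_cases h : j ∈ J <;> simp [h]
  map_smul' := by
    intro c a
    funext x
    rcases x with i | j
    · by_cases h : i ∈ I <;> simp [h]
    · by_cases h : j ∈ J <;> simp [h]

theorem ext_inl (I : Finset ρ) (J : Finset τ) (a : I ⊕ J → ℂ) (i : ρ) :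
    ext I J a (Sum.inl i) = if h : i ∈ I then a (Sum.inl ⟨i, h⟩) else 0 := rfl

theorem ext_inr (I : Finset ρ) (J : Finset τ) (a : I ⊕ J → ℂ) (j : τ) :
    ext I J a (Sum.inr j) = if h : j ∈ J then a (Sum.inr ⟨j, h⟩) else 0 := rfl

/-- restriction of polynomials to the slice -/
noncomputable def res (I : Finset ρ) (J : Finset τ) :
    MvPolynomial (ρ ⊕ τ) ℂ →ₐ[ℂ] MvPolynomial (I ⊕ J) ℂ :=
  aeval (Sum.elim (fun i => if h : i ∈ I then X (Sum.inl ⟨i, h⟩) else 0)
    (fun j => if h : j ∈ J then X (Sum.inr ⟨j, h⟩) else 1))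

theorem res_inl (I : Finset ρ) (J : Finset τ) (i : ρ) :
    res I J (X (Sum.inl i)) = if h : i ∈ I then X (Sum.inl ⟨i, h⟩) else 0 := by
  rw [res, aeval_X]; rfl

theorem res_inr (I : Finset ρ) (J : Finset τ) (j : τ) :
    res I J (X (Sum.inr j)) = if h : j ∈ J then X (Sum.inr ⟨j, h⟩) else 1 := by
  rw [res, aeval_X]; rfl

theorem res_C (I : Finset ρ) (J : Finset τ) (a : ℂ) : res I J (C a) = C a := by
  rw [res]; simp

theorem eval_res (I : Finset ρ) (J : Finset τ) (a : I ⊕ J → ℂ) (f : MvPolynomial (ρ ⊕ τ) ℂ) :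
    eval (pt kap a) (res I J f) = eval (pt kap (ext I J a)) f := by
  induction f using MvPolynomial.induction_on with
  | C c => rw [res_C, eval_C, eval_C]
  | add p q hp hq => rw [map_add, map_add, map_add, hp, hq]
  | mul_X p x hp =>
    have hX : eval (pt kap a) (res I J (X x)) = eval (pt kap (ext I J a)) (X x) := by
      rcases x with i | j
      · rw [res_inl, eval_X]
        by_cases h : i ∈ I
        · rw [dif_pos h, eval_X]
          simp [pt, kap, ext_inl, h]
        · rw [dif_neg h, map_zero]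
          simp [pt, kap, ext_inl, h]
      · rw [res_inr, eval_X]
        by_cases h : j ∈ J
        · rw [dif_pos h, eval_X]
          simp [pt, kap, ext_inr, h]
        · rw [dif_neg h, map_one]
          simp [pt, kap, ext_inr, h]
    rw [map_mul, map_mul, map_mul, hp, hX]

theorem dv_res (I : Finset ρ) (J : Finset τ) (w : I ⊕ J → ℂ) (f : MvPolynomial (ρ ⊕ τ) ℂ) :
    dv kap w (res I J f) = res I J (dv kap (ext I J w) f) := by
  induction f using MvPolynomial.induction_on with
  | C c => rw [res_C, dv_C, dv_C, map_zero]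
  | add p q hp hq => rw [map_add, map_add, map_add, map_add, hp, hq]
  | mul_X p x hp =>
    have hX : dv kap w (res I J (X x)) = res I J (dv kap (ext I J w) (X x)) := by
      rcases x with i | j
      · rw [res_inl]
        by_cases h : i ∈ I
        · rw [dif_pos h, dv_X, dv_X]
          simp [kap, ext_inl, h, res_C]
        · rw [dif_neg h, map_zero, dv_X]
          simp [kap, ext_inl, h]
      · rw [res_inr]
        by_cases h : j ∈ J
        · rw [dif_pos h, dv_X, dv_X]
          simp [kap, ext_inr, h, res_C, res_inr]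
        · rw [dif_neg h, dv_X]
          have h1 : dv kap w (1 : MvPolynomial (I ⊕ J) ℂ) = 0 := by
            have := dv_C kap w (1 : ℂ)
            rwa [C_1] at this
          rw [h1]
          simp [kap, ext_inr, h]
    rw [map_mul, Derivation.leibniz, Derivation.leibniz, map_add, hp, hX]
    simp only [smul_eq_mul, map_mul]

theorem iter_res (I : Finset ρ) (J : Finset τ) (w : I ⊕ J → ℂ) (m : ℕ)
    (f : MvPolynomial (ρ ⊕ τ) ℂ) :
    (dv kap w)^[m] (res I J f) = res I J ((dv kap (ext I J w))^[m] f) := by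
  induction m generalizing f with
  | zero => rfl
  | succ m ih => rw [Function.iterate_succ_apply, dv_res, ih, ← Function.iterate_succ_apply]

theorem res_box (I : Finset ρ) (J : Finset τ) (T0 T1 : ℕ) (f : MvPolynomial (ρ ⊕ τ) ℂ)
    (hf : f ∈ box (TT T0 T1)) : res I J f ∈ box (TT T0 T1) := by
  classical
  let emb : I ⊕ J → ρ ⊕ τ := Sum.map Subtype.val Subtype.val
  have hT : ∀ y : I ⊕ J, (TT T0 T1 y : ℕ) = TT T0 T1 (emb y) := by
    rintro (y | y) <;> rfl
  have hX : ∀ (y : I ⊕ J) (x : ρ ⊕ τ), degreeOf y (res I J (X x)) ≤ if x = emb y then 1 else 0 := by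
    intro y x
    rcases x with i | j
    · rw [res_inl]
      by_cases h : i ∈ I
      · rw [dif_pos h, degreeOf_X]
        rcases y with y | y
        · by_cases hy : i = y.1
          · subst hy; simp [emb]
          · have : ¬ ((Sum.inl y : I ⊕ J) = Sum.inl ⟨i, h⟩) := by
              intro h1
              apply hy
              have := Sum.inl.inj h1
              rw [this]
            rw [if_neg this]; exact Nat.zero_le _
        · simp
      · rw [dif_neg h, degreeOf_zero]; exact Nat.zero_le _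
    · rw [res_inr]
      by_cases h : j ∈ J
      · rw [dif_pos h, degreeOf_X]
        rcases y with y | y
        · simp
        · by_cases hy : j = y.1
          · subst hy; simp [emb]
          · have : ¬ ((Sum.inr y : I ⊕ J) = Sum.inr ⟨j, h⟩) := by
              intro h1
              apply hy
              have := Sum.inr.inj h1
              rw [this]
            rw [if_neg this]; exact Nat.zero_le _
      · rw [dif_neg h, ← C_1, degreeOf_C]; exact Nat.zero_le _
  have hprod : ∀ (y : I ⊕ J) (s : Finset (ρ ⊕ τ)) (e : ρ ⊕ τ → ℕ),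
      degreeOf y (∏ x ∈ s, res I J (X x) ^ e x) ≤ ∑ x ∈ s, e x * (if x = emb y then 1 else 0) := by
    intro y s e
    induction s using Finset.induction_on with
    | empty => simp
    | insert a s ha ih =>
      rw [Finset.prod_insert ha, Finset.sum_insert ha]
      refine (degreeOf_mul_le _ _ _).trans (Nat.add_le_add ?_ ih)
      exact (degreeOf_pow_le _ _ _).trans (Nat.mul_le_mul_left _ (hX y a))
  rw [mem_box]
  intro y
  rw [f.as_sum, map_sum]
  refine (degreeOf_sum_le _ _ _).trans ?_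
  rw [Finset.sup_le_iff]
  intro m hm
  have hmT : m (emb y) ≤ TT T0 T1 (emb y) :=
    (MvPolynomial.degreeOf_le_iff.1 (mem_box.1 hf (emb y))) m hm
  rw [monomial_eq, map_mul, res_C]
  refine (degreeOf_C_mul_le _ _ _).trans ?_
  rw [Finsupp.prod_fintype _ _ (fun i => pow_zero _), map_prod]
  simp only [map_pow]
  refine (hprod y Finset.univ m).trans ?_
  rw [hT]
  simpa using hmT

/-- the slice -/
structure Slice (L : Submodule ℂ (ρ ⊕ τ → ℂ)) (Θ : Set (ρ ⊕ τ → ℤ)) (I : Finset ρ)
    (J : Finset τ) : Prop where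
  cI : I.card + finrank ℂ L = Fintype.card ρ
  cJ : J.card + finrank ℂ (Lie kap ⊥ Θ) = Fintype.card τ
  inj : ∀ a : I ⊕ J → ℂ, ext I J a ∈ Lie kap L Θ → a = 0
  surj : ∀ x : ρ ⊕ τ → ℂ, ∃ a : I ⊕ J → ℂ, x - ext I J a ∈ Lie kap L Θ
  fin : {z : I ⊕ J → ℂ | ∃ a, z = pt kap a ∧ ext I J a ∈ Grp kap L Θ}.Finite
  injG : ∀ a : I ⊕ J → ℂ, ext I J a ∈ Grp kap L Θ → ∀ i, a (Sum.inl i) = 0

theorem exists_slice (L : Submodule ℂ (ρ ⊕ τ → ℂ)) (Θ : Set (ρ ⊕ τ → ℤ)) (T : ρ ⊕ τ → ℕ)
    (hstd : Std kap T L Θ) : ∃ (I : Finset ρ) (J : Finset τ), Slice L Θ I J := by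
  classical
  let R : (ρ ⊕ τ → ℂ) →ₗ[ℂ] (ρ → ℂ) := LinearMap.funLeft ℂ ℂ Sum.inl
  let R' : (ρ ⊕ τ → ℂ) →ₗ[ℂ] (τ → ℂ) := LinearMap.funLeft ℂ ℂ Sum.inr
  let Lρ : Submodule ℂ (ρ → ℂ) := L.map R
  let Θτ : Set (τ → ℤ) := (fun u j => u (Sum.inr j)) '' Θ
  let Uτ : Submodule ℂ (τ → ℂ) := (Lie kap ⊥ Θ).map R'
  -- membership
  have hLρ : ∀ x : ρ → ℂ, x ∈ Lρ ↔ (Sum.elim x (fun _ => (0 : ℂ)) : ρ ⊕ τ → ℂ) ∈ L := by
    intro x
    constructor
    · rintro ⟨g, hg, rfl⟩
      have : (Sum.elim (R g) (fun _ => (0 : ℂ)) : ρ ⊕ τ → ℂ) = g := by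
        funext y
        rcases y with i | j
        · rfl
        · exact (hstd.hL g hg (Sum.inr j) rfl).symm
      rw [this]; exact hg
    · intro h
      exact ⟨_, h, rfl⟩
  have hsumΘ : ∀ u ∈ Θ, ∀ g : ρ ⊕ τ → ℂ, ∑ x, (u x : ℂ) * g x = ∑ j, (u (Sum.inr j) : ℂ) * g (Sum.inr j) := by
    intro u hu g
    rw [Fintype.sum_sum_type]
    have : ∑ i, (u (Sum.inl i) : ℂ) * g (Sum.inl i) = 0 := by
      refine Finset.sum_eq_zero fun i _ => ?_
      rw [hstd.hΘ u hu (Sum.inl i) rfl]; simp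
    rw [this, zero_add]
  have hUτ : ∀ x : τ → ℂ, x ∈ Uτ ↔ ∀ lam ∈ Θτ, ∑ j, (lam j : ℂ) * x j = 0 := by
    intro x
    constructor
    · rintro ⟨g, hg, rfl⟩
      rintro _ ⟨u, hu, rfl⟩
      have := hg.2 u hu
      rw [hsumΘ u hu] at this
      exact this
    · intro h
      refine ⟨Sum.elim (fun _ => 0) x, ⟨?_, ?_⟩, rfl⟩
      · rw [Submodule.mem_bot]
        funext y
        rcases y with i | j <;> simp [kap]
      · intro u hu
        rw [hsumΘ u hu]
        exact h _ ⟨u, hu, rfl⟩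
  obtain ⟨I, hI1, hI2⟩ := lin_compl' Lρ
  obtain ⟨J, hJ1, hJ2, hJ3⟩ := torus_compl' Θτ
  have hadd : ∀ g : ρ ⊕ τ → ℂ, (fun x => if kap x then 0 else g x) = (Sum.elim (fun i => g (Sum.inl i)) (fun _ => (0 : ℂ)) : ρ ⊕ τ → ℂ) := by
    intro g
    funext y
    rcases y with i | j <;> simp [kap]
  have hfr1 : finrank ℂ Lρ = finrank ℂ L := by
    have hinj : Function.Injective (R.domRestrict L) := by
      rw [← LinearMap.ker_eq_bot, LinearMap.ker_eq_bot']
      rintro ⟨g, hg⟩ h
      apply Subtype.ext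
      funext y
      rcases y with i | j
      · exact congrFun h i
      · exact hstd.hL g hg (Sum.inr j) rfl
    have h1 := LinearMap.finrank_range_of_inj hinj
    rw [LinearMap.range_domRestrict] at h1
    exact h1
  have hfr2 : finrank ℂ Uτ = finrank ℂ (Lie kap ⊥ Θ) := by
    have hinj : Function.Injective (R'.domRestrict (Lie kap ⊥ Θ)) := by
      rw [← LinearMap.ker_eq_bot, LinearMap.ker_eq_bot']
      rintro ⟨g, hg⟩ h
      apply Subtype.ext
      funext y
      rcases y with i | j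
      · have h1 := hg.1
        rw [Submodule.mem_bot] at h1
        have := congrFun h1 (Sum.inl i)
        simpa [kap] using this
      · exact congrFun h j
    have h1 := LinearMap.finrank_range_of_inj hinj
    rw [LinearMap.range_domRestrict] at h1
    exact h1
  have hJ2' : ∀ x ∈ Uτ, (∀ j ∉ J, x j = 0) → x = 0 := fun x hx h => hJ2 x ((hUτ x).1 hx) h
  have hJ3' : ∀ x : τ → ℂ, ∃ x' : τ → ℂ, (∀ j ∉ J, x' j = 0) ∧ x - x' ∈ Uτ := by
    intro x
    obtain ⟨x', h1, h2⟩ := hJ3 x
    exact ⟨x', h1, (hUτ _).2 h2⟩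
  have hext0 : ∀ a : I ⊕ J → ℂ, (∀ i ∉ I, ext I J a (Sum.inl i) = 0) ∧ (∀ j ∉ J, ext I J a (Sum.inr j) = 0) := by
    intro a
    exact ⟨fun i hi => by rw [ext_inl, dif_neg hi], fun j hj => by rw [ext_inr, dif_neg hj]⟩
  have hinl : ∀ a : I ⊕ J → ℂ, (fun x => if kap x then 0 else ext I J a x) ∈ L → ∀ i, a (Sum.inl i) = 0 := by
    intro a h1 i
    rw [hadd] at h1
    have h2 := (hLρ (fun i => ext I J a (Sum.inl i))).2 h1
    have h3 := congrFun (hI1 _ h2 (hext0 a).1) i.1
    simp only [ext_inl, dif_pos i.2, Pi.zero_apply] at h3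
    exact h3
  refine ⟨I, J, ?_, ?_, ?_, ?_, ?_, ?_⟩
  · rw [← hfr1]; exact compl_card Lρ I hI1 hI2
  · rw [← hfr2]; exact compl_card Uτ J hJ2' hJ3'
  · rintro a ⟨h1, h2⟩
    have h3 : (fun j => ext I J a (Sum.inr j)) = 0 := by
      apply hJ2
      · rintro _ ⟨u, hu, rfl⟩
        have := h2 u hu
        rw [hsumΘ u hu] at this
        exact this
      · exact (hext0 a).2
    funext y
    rcases y with i | j
    · exact hinl a h1 i
    · have h4 := congrFun h3 j.1
      simp only [ext_inr, dif_pos j.2, Pi.zero_apply] at h4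
      exact h4
  · intro x
    obtain ⟨x1, hx1, hx1'⟩ := hI2 (fun i => x (Sum.inl i))
    obtain ⟨x2, hx2, hx2'⟩ := hJ3 (fun j => x (Sum.inr j))
    refine ⟨Sum.elim (fun i => x1 i) (fun j => x2 j), ?_, ?_⟩
    · have h1 : (fun i => (x - ext I J (Sum.elim (fun i => x1 i) (fun j => x2 j))) (Sum.inl i)) =
          (fun i => x (Sum.inl i)) - x1 := by
        funext i
        simp only [Pi.sub_apply, ext_inl]
        by_cases h : i ∈ I
        · rw [dif_pos h]; rfl
        · rw [dif_neg h, hx1 i h]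
      rw [hadd, h1]
      exact (hLρ _).1 hx1'
    · intro u hu
      rw [hsumΘ u hu]
      have h1 := hx2' _ ⟨u, hu, rfl⟩
      rw [← h1]
      refine Finset.sum_congr rfl fun j _ => ?_
      simp only [Pi.sub_apply, ext_inr]
      by_cases h : j ∈ J
      · rw [dif_pos h]; rfl
      · rw [dif_neg h, hx2 j h]
  · -- finiteness
    refine Set.Finite.subset (Set.Finite.image (fun z : τ → ℂ => (Sum.elim (fun _ => (0 : ℂ)) (fun j : J => z j) : I ⊕ J → ℂ)) hJ1) ?_
    rintro z ⟨a, rfl, h1, h2⟩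
    refine ⟨fun j => Complex.exp (ext I J a (Sum.inr j)), ⟨fun j => ext I J a (Sum.inr j), rfl, (hext0 a).2, ?_⟩, ?_⟩
    · rintro _ ⟨u, hu, rfl⟩
      have := h2 u hu
      rw [hsumΘ u hu] at this
      exact this
    · funext y
      rcases y with i | j
      · simp [pt, kap, hinl a h1 i]
      · simp [pt, kap, ext_inr]
  · rintro a ⟨h1, -⟩ i
    exact hinl a h1 i

end sl

theorem zeT (hSLC : T_SLC) : T_ZE := by
  classical
  intro ρ τ _ _ _ _ T0 T1 S W Γ P hT0 hT1 h0 hP hPT hev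
  have hcard : Fintype.card (ρ ⊕ τ) = Fintype.card ρ + Fintype.card τ := Fintype.card_sum
  obtain ⟨j, hj, N, hNT, hcN, ⟨Z, hZ⟩, hne⟩ := chnT (ρ ⊕ τ) kap (TT T0 T1) W Γ S P h0 hP hPT (by
    rw [hcard]; exact hev)
  obtain ⟨L, Θ, hstd, hst⟩ := str (ρ ⊕ τ) kap (TT T0 T1) N hNT
  obtain ⟨I, J, hsl⟩ := exists_slice L Θ (TT T0 T1) hstd
  have hcI := hsl.cI
  have hcJ := hsl.cJ
  -- the chain spaces
  set Lj := chn kap W Γ S P j with hLj
  have hLjT : Lj ≤ box (TT T0 T1) := chn_box kap W Γ S hPT j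
  have hDW : DW kap W (TL kap Γ Lj) S ≤ N := hcN
  -- functionals which vanish on N
  let Ph : Set (MvPolynomial (ρ ⊕ τ) ℂ →ₗ[ℂ] ℂ) := {φ | N ≤ LinearMap.ker φ}
  choose Hc hHbox hHev hHdv using fun φ : MvPolynomial (ρ ⊕ τ) ℂ →ₗ[ℂ] ℂ => com (ρ ⊕ τ) kap φ
  let L' : Submodule ℂ (MvPolynomial (I ⊕ J) ℂ) :=
    Submodule.span ℂ {h | ∃ φ ∈ Ph, ∃ f ∈ Lj, h = res I J (Hc φ f)}
  -- points killed by L'
  have hsig : ∀ a : I ⊕ J → ℂ, (∀ h ∈ L', eval (pt kap a) h = 0) → ext I J a ∈ sig kap Lj N := by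
    intro a ha f hf
    by_contra hne
    obtain ⟨φ, hφ1, hφ2⟩ := Submodule.exists_le_ker_of_notMem hne
    have h1 := ha (res I J (Hc φ f)) (Submodule.subset_span ⟨φ, hφ2, f, hf, rfl⟩)
    rw [eval_res, hHev] at h1
    exact hφ1 h1
  -- the representatives
  choose r hr using hsl.surj
  let W' : Submodule ℂ (I ⊕ J → ℂ) := (W ⊔ Lie kap L Θ).comap (ext I J)
  have hfrW : finrank ℂ W' = finrank ℂ W -
      finrank ℂ (W ⊓ Lie kap L Θ : Submodule ℂ (ρ ⊕ τ → ℂ)) := by
    have e1 : (W'.map (ext I J)) ⊔ Lie kap L Θ = W ⊔ Lie kap L Θ := by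
      apply le_antisymm
      · refine sup_le ?_ le_sup_right
        rintro _ ⟨a, ha, rfl⟩
        exact ha
      · refine sup_le ?_ le_sup_right
        intro x hx
        have h1 := hr x
        have h2 : ext I J (r x) ∈ W ⊔ Lie kap L Θ := by
          have h3 : ext I J (r x) = x - (x - ext I J (r x)) := by abel
          rw [h3]
          exact Submodule.sub_mem _ (Submodule.mem_sup_left hx) (Submodule.mem_sup_right h1)
        have h3 : x = ext I J (r x) + (x - ext I J (r x)) := by abel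
        rw [h3]
        exact Submodule.add_mem _ (Submodule.mem_sup_left ⟨r x, h2, rfl⟩) (Submodule.mem_sup_right h1)
    have e2 : (W'.map (ext I J)) ⊓ Lie kap L Θ = ⊥ := by
      rw [eq_bot_iff]
      rintro _ ⟨⟨a, ha, rfl⟩, h2⟩
      rw [Submodule.mem_bot, hsl.inj a h2, map_zero]
    have hinj : Function.Injective (ext I J) := by
      rw [← LinearMap.ker_eq_bot, LinearMap.ker_eq_bot']
      intro a ha
      apply hsl.inj
      rw [ha]
      exact Submodule.zero_mem _
    have e3 : finrank ℂ (W'.map (ext I J)) = finrank ℂ W' :=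
      (LinearEquiv.finrank_eq (Submodule.equivMapOfInjective (ext I J) hinj W')).symm
    have e4 := Submodule.finrank_sup_add_finrank_inf_eq (W'.map (ext I J)) (Lie kap L Θ)
    have e5 := Submodule.finrank_sup_add_finrank_inf_eq W (Lie kap L Θ)
    rw [e1, e2, e3, finrank_bot] at e4
    omega
  -- not everything
  have hlt : finrank ℂ L + finrank ℂ (Lie kap ⊥ Θ) < Fintype.card ρ + Fintype.card τ := by
    by_contra hcon
    have h1 : I.card = 0 := by omega
    have h2 : J.card = 0 := by omega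
    rw [Finset.card_eq_zero] at h1 h2
    apply hne
    rw [hst]
    ext g
    refine ⟨fun _ => trivial, fun _ => ?_⟩
    have h3 := hr g
    have h4 : ext I J (r g) = 0 := by
      funext x
      rcases x with i | i
      · rw [ext_inl, dif_neg (by rw [h1]; exact Finset.notMem_empty _)]; rfl
      · rw [ext_inr, dif_neg (by rw [h2]; exact Finset.notMem_empty _)]; rfl
    rw [h4, sub_zero] at h3
    exact Lie_le_Grp h3
  refine ⟨L, Θ, hstd, by omega, by omega, hlt, ?_⟩
  intro F hFΓ hFd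
  -- apply the finite estimate
  have hdist : ∀ g ∈ F, ∀ g' ∈ F, pt kap (r g) = pt kap (r g') → g = g' := by
    intro g hg g' hg' hpt
    apply hFd g hg g' hg'
    have h1 : ext I J (r g - r g') ∈ Grp kap L Θ := by
      refine ⟨?_, fun u hu => ?_⟩
      · have h2 : (fun x => if kap x then 0 else ext I J (r g - r g') x) = (0 : ρ ⊕ τ → ℂ) := by
          funext x
          rcases x with i | i
          · have h3 : ∀ (h : i ∈ I), r g (Sum.inl ⟨i, h⟩) = r g' (Sum.inl ⟨i, h⟩) := by
              intro h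
              have := congrFun hpt (Sum.inl ⟨i, h⟩)
              simpa [pt, kap] using this
            by_cases h : i ∈ I
            · simp [kap, ext_inl, h, h3 h]
            · simp [kap, ext_inl, h]
          · simp [kap]
        rw [h2]
        exact L.zero_mem
      · rw [Complex.exp_sum]
        refine Finset.prod_eq_one fun x _ => ?_
        rcases x with i | i
        · rw [hstd.hΘ u hu (Sum.inl i) rfl]; simp
        · by_cases h : i ∈ J
          · have h3 : Complex.exp (r g (Sum.inr ⟨i, h⟩)) = Complex.exp (r g' (Sum.inr ⟨i, h⟩)) := by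
              have := congrFun hpt (Sum.inr ⟨i, h⟩)
              simpa [pt, kap] using this
            rw [ext_inr, dif_pos h, Pi.sub_apply, Complex.exp_int_mul, Complex.exp_sub, h3,
              div_self (Complex.exp_ne_zero _), one_zpow]
          · rw [ext_inr, dif_neg h, mul_zero, Complex.exp_zero]
    have h2 : g - g' = ext I J (r g - r g') + ((g - ext I J (r g)) - (g' - ext I J (r g'))) := by
      rw [map_sub]; abel
    rw [h2]
    exact Grp_add h1 (Lie_le_Grp ((Lie kap L Θ).sub_mem (hr g) (hr g')))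
  have hmain := hSLC (I ⊕ J) kap (TT T0 T1) W' S L' (F.image r) ?_ ?_ ?_ ?_ ?_
  · have hFc : (F.image r).card = F.card := by
      apply Finset.card_image_of_injOn
      intro g hg g' hg' hgg
      exact hdist g hg g' hg' (by rw [hgg])
    have hprod : ∏ x : I ⊕ J, (TT T0 T1 x : ℕ) = T0 ^ I.card * T1 ^ J.card := by
      rw [Fintype.prod_sum_type]
      simp [TT]
    have hcIJ : Fintype.card (I ⊕ J) = I.card + J.card := by
      rw [Fintype.card_sum, Fintype.card_coe, Fintype.card_coe]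
    rw [hFc, hfrW, hprod, hcIJ] at hmain
    have e1 : I.card = Fintype.card ρ - finrank ℂ L := by omega
    have e2 : J.card = Fintype.card τ - finrank ℂ (Lie kap ⊥ Θ) := by omega
    rw [← e1, ← e2]
    refine hmain.trans (Nat.mul_le_mul_right _ ?_)
    have e3 : I.card + J.card ≤ Fintype.card ρ + Fintype.card τ := by omega
    have e4 : 0 < Fintype.card ρ + Fintype.card τ := by omega
    calc (I.card + J.card) ^ (I.card + J.card) ≤
          (Fintype.card ρ + Fintype.card τ) ^ (I.card + J.card) := Nat.pow_le_pow_left e3 _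
      _ ≤ _ := Nat.pow_le_pow_right e4 e3
  · rintro (i | i)
    · exact hT0
    · exact hT1
  · rw [Submodule.span_le]
    rintro _ ⟨φ, -, f, hf, rfl⟩
    exact res_box I J T0 T1 _ (hHbox φ _ f (hLjT hf))
  · -- finiteness of the zero set
    have hB : ∀ z ∈ Z, {x : I ⊕ J → ℂ | ∃ a, x = pt kap a ∧ ext I J a - z ∈ stab kap N}.Finite := by
      intro z _
      by_cases hex : ∃ a0 : I ⊕ J → ℂ, ext I J a0 - z ∈ stab kap N
      · obtain ⟨a0, ha0⟩ := hex
        refine Set.Finite.subset (hsl.fin.image (fun x : I ⊕ J → ℂ => (Sum.elim (fun i => a0 (Sum.inl i))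
          (fun i => Complex.exp (a0 (Sum.inr i)) * x (Sum.inr i)) : I ⊕ J → ℂ))) ?_
        rintro _ ⟨a, rfl, ha⟩
        rw [hst] at ha ha0
        have h1 : ext I J (a - a0) ∈ Grp kap L Θ := by
          have := Grp_sub ha ha0
          rwa [sub_sub_sub_cancel_right, ← map_sub] at this
        refine ⟨pt kap (a - a0), ⟨a - a0, rfl, h1⟩, ?_⟩
        funext x
        rcases x with i | i
        · have h2 := hsl.injG _ h1 i
          rw [Pi.sub_apply, sub_eq_zero] at h2
          simp [pt, kap, h2]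
        · simp [pt, kap, ← Complex.exp_add]
      · refine Set.Finite.subset Set.finite_empty ?_
        rintro _ ⟨a, rfl, ha⟩
        exact absurd ⟨a, ha⟩ hex
    refine Set.Finite.subset (Set.Finite.biUnion Z.finite_toSet hB) ?_
    rintro a ⟨ha1, ha2⟩
    let b : I ⊕ J → ℂ := fun i => if kap i then Complex.log (a i) else a i
    have hb : pt kap b = a := by
      funext i
      by_cases hi : kap i = true
      · simp [pt, b, hi, Complex.exp_log (ha1 i hi)]
      · simp [pt, b, hi]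
    have h1 := hsig b (by rw [hb]; exact ha2)
    obtain ⟨z, hz, hzs⟩ := hZ _ h1
    simp only [Set.mem_iUnion]
    exact ⟨z, hz, b, hb.symm, hzs⟩
  · intro g hg g' hg' hpt
    obtain ⟨x, hx, rfl⟩ := Finset.mem_image.1 hg
    obtain ⟨x', hx', rfl⟩ := Finset.mem_image.1 hg'
    rw [hdist x hx x' hx' hpt]
  · -- vanishing
    intro g hg h hh w hw m hm
    obtain ⟨x, hx, rfl⟩ := Finset.mem_image.1 hg
    induction hh using Submodule.span_induction with
    | mem h hh =>
      obtain ⟨φ, hφ, f, hf, rfl⟩ := hh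
      obtain ⟨w1, hw1, s1, hs1, hws⟩ := Submodule.mem_sup.1 (show ext I J w ∈ W ⊔ Lie kap L Θ from hw)
      have hws' : ext I J w = w1 - (-s1) := by rw [← hws]; abel
      have hiter : ∀ (k : ℕ) (F0 : MvPolynomial (ρ ⊕ τ) ℂ),
          (dv kap (ext I J w))^[k] (Hc φ F0) = Hc φ ((dv kap (ext I J w))^[k] F0) := by
        intro k
        induction k with
        | zero => intro F0; rfl
        | succ k ih =>
          intro F0
          rw [Function.iterate_succ_apply, ← hHdv, ih, ← Function.iterate_succ_apply]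
      rw [iter_res, hiter, eval_res, hHev]
      apply hφ
      have h1 : ext I J (r x) = (ext I J (r x) - x) + x := by abel
      rw [h1, ← tr_tr, ← iter_tr, hws']
      have h2 : ext I J (r x) - x ∈ stab kap N := by
        rw [hst]
        have : ext I J (r x) - x = -(x - ext I J (r x)) := by abel
        rw [this]
        exact Lie_le_Grp ((Lie kap L Θ).neg_mem (hr x))
      apply h2
      have h3 := iter_stay hst hDW hw1 ((Lie kap L Θ).neg_mem hs1)
        (f := tr kap x f) (Submodule.subset_span ⟨x, hFΓ x hx, f, hf, rfl⟩) m 0 (by omega)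
      exact h3
    | zero => rw [show (0 : MvPolynomial (I ⊕ J) ℂ) = (0 : ℂ) • 0 by simp, iter_smul]; simp
    | add h1 h2 _ _ ih1 ih2 => rw [iter_add, map_add, ih1, ih2, add_zero]
    | smul c h1 _ ih1 => rw [iter_smul, smul_eval, ih1, mul_zero]

end Pool.Agent.H35.HR
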