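import Pool.Agent.H72.HR.Targets
import Pool.Agent.H72.HR.StabSplit2

/-!
Module ZE of MP_3cf473_nt (HR), part 1: the coordinate slice.
-/

open Module

namespace Pool.Agent.H35.HR

open Pool.Agent.H72.HR

/-- coordinates on a subspace, general index type -/
theorem exists_coords' {K : Type*} [Field K] [LinearOrder K] [IsStrictOrderedRing K] {ι : Type*}
    [Fintype ι] [DecidableEq ι] (V : Submodule K (ι → K)) :
    ∃ J : Finset ι, J.card = finrank K V ∧ ∀ v ∈ V, ∀ i, |v i| ≤ ∑ j ∈ J, |v j| := by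
  let e : ι ≃ Fin (Fintype.card ι) := Fintype.equivFin ι
  let E : (ι → K) ≃ₗ[K] (Fin (Fintype.card ι) → K) := LinearEquiv.funCongrLeft K K e.symm
  obtain ⟨J, hJc, hJ⟩ := exists_coords (V.map (E : (ι → K) →ₗ[K] (Fin (Fintype.card ι) → K)))
  refine ⟨J.map e.symm.toEmbedding, ?_, ?_⟩
  · rw [Finset.card_map, hJc]
    exact LinearEquiv.finrank_map_eq E V
  · intro v hv i
    have h1 := hJ (E v) (Submodule.mem_map_of_mem hv) (e i)
    have h2 : ∀ k, E v k = v (e.symm k) := fun k => rfl
    rw [h2, Equiv.symm_apply_apply] at h1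
    refine h1.trans (le_of_eq ?_)
    rw [Finset.sum_map]
    rfl

/-- Coordinates on a subspace: `|J| = dim V`, the coordinates in `J` give an isomorphism. -/
theorem exists_coords_iso' {K : Type*} [Field K] [LinearOrder K] [IsStrictOrderedRing K]
    {ι : Type*} [Fintype ι] [DecidableEq ι] (V : Submodule K (ι → K)) :
    ∃ (J : Finset ι) (c : ι → ι → K), J.card = finrank K V ∧
      (∀ v ∈ V, ∀ i, v i = ∑ j ∈ J, c i j * v j) ∧
      (∀ j ∈ J, (fun i => c i j) ∈ V ∧ ∀ i ∈ J, c i j = if i = j then 1 else 0) := by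
  classical
  obtain ⟨J, hJc, hJ⟩ := exists_coords' V
  let ρ : V →ₗ[K] (J → K) := LinearMap.pi fun j => (LinearMap.proj (j : ι)).comp V.subtype
  have hinj : Function.Injective ρ := by
    rw [← LinearMap.ker_eq_bot, LinearMap.ker_eq_bot']
    intro v hv
    have h1 : ∀ j ∈ J, (v : ι → K) j = 0 := fun j hj => congrFun hv ⟨j, hj⟩
    have h2 : ∑ j ∈ J, |(v : ι → K) j| = 0 :=
      Finset.sum_eq_zero fun j hj => by rw [h1 j hj, abs_zero]
    apply Subtype.ext
    funext i
    have h3 := hJ v v.2 i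
    rw [h2] at h3
    exact abs_eq_zero.1 (le_antisymm h3 (abs_nonneg _))
  have hfr : finrank K V = finrank K (J → K) := by
    rw [finrank_fintype_fun_eq_card, Fintype.card_coe, hJc]
  have hsurj : Function.Surjective ρ := (LinearMap.injective_iff_surjective_of_finrank_eq_finrank hfr).1 hinj
  choose g hg using fun j : J => hsurj (Pi.single j 1)
  refine ⟨J, fun i j => if h : j ∈ J then (g ⟨j, h⟩ : ι → K) i else 0, hJc, ?_, ?_⟩
  · intro v hv i
    have h1 : (⟨v, hv⟩ : V) = ∑ j : J, v j • g j := by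
      apply hinj
      rw [map_sum]
      funext k
      simp only [map_smul, hg, Finset.sum_apply, Pi.smul_apply, smul_eq_mul, Pi.single_apply]
      simp [ρ]
    have h2 := congrFun (congrArg Subtype.val h1) i
    simp only [Submodule.coe_sum, Submodule.coe_smul, Finset.sum_apply, Pi.smul_apply,
      smul_eq_mul] at h2
    rw [h2, ← Finset.sum_coe_sort J]
    refine Finset.sum_congr rfl fun j _ => ?_
    simp only [dif_pos j.2]
    ring
  · intro j hj
    constructor
    · have : (fun i => if h : j ∈ J then (g ⟨j, h⟩ : ι → K) i else 0) = (g ⟨j, hj⟩ : ι → K) := by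
        funext i
        rw [dif_pos hj]
      rw [this]
      exact (g ⟨j, hj⟩).2
    · intro i hi
      simp only [dif_pos hj]
      have := congrFun (hg ⟨j, hj⟩) ⟨i, hi⟩
      simp only [ρ, LinearMap.pi_apply, LinearMap.comp_apply, LinearMap.proj_apply,
        Submodule.subtype_apply, Pi.single_apply, Subtype.mk.injEq] at this
      exact this

/-- An element of the `ℚ`-span of a set of integer vectors has a positive multiple in the
`ℤ`-span. -/
theorem exists_mul_mem' {ι : Type*} (Θ : Set (ι → ℤ)) {v : ι → ℚ}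
    (hv : v ∈ Submodule.span ℚ ((fun (u : ι → ℤ) (i : ι) => (u i : ℚ)) '' Θ)) :
    ∃ (m : ℕ) (lam : ι → ℤ), 0 < m ∧ lam ∈ AddSubgroup.closure Θ ∧ ∀ i, (lam i : ℚ) = m * v i := by
  induction hv using Submodule.span_induction with
  | mem x hx =>
    obtain ⟨lam, hlam, rfl⟩ := hx
    exact ⟨1, lam, one_pos, AddSubgroup.subset_closure hlam, fun i => by simp⟩
  | zero => exact ⟨1, 0, one_pos, zero_mem _, fun i => by simp⟩
  | add x y _ _ hx hy =>
    obtain ⟨m, a, hm, ha, hax⟩ := hx
    obtain ⟨n, b, hn, hb, hby⟩ := hy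
    refine ⟨m * n, n • a + m • b, Nat.mul_pos hm hn, add_mem (nsmul_mem ha n) (nsmul_mem hb m),
      fun i => ?_⟩
    have e : (n • a + m • b) i = (n : ℤ) * a i + (m : ℤ) * b i := by simp
    rw [e]
    push_cast
    rw [hax, hby, Pi.add_apply]
    ring
  | smul c x _ hx =>
    obtain ⟨m, a, hm, ha, hax⟩ := hx
    refine ⟨m * c.den, c.num • a, Nat.mul_pos hm c.pos, zsmul_mem ha c.num, fun i => ?_⟩
    simp only [Pi.smul_apply, smul_eq_mul]
    push_cast
    rw [hax]
    have h1 : (c.den : ℚ) * c = c.num := by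
      rw [mul_comm]; exact Rat.mul_den_eq_num c
    rw [← h1]
    ring

/-- Complementary coordinate torus. -/
theorem torus_compl' {τ : Type*} [Fintype τ] [DecidableEq τ] (Θ : Set (τ → ℤ)) :
    ∃ J : Finset τ,
      {z : τ → ℂ | ∃ u : τ → ℂ, (z = fun j => Complex.exp (u j)) ∧ (∀ j ∉ J, u j = 0) ∧
        ∀ lam ∈ Θ, Complex.exp (∑ i, (lam i : ℂ) * u i) = 1}.Finite ∧
      (∀ u : τ → ℂ, (∀ lam ∈ Θ, ∑ i, (lam i : ℂ) * u i = 0) → (∀ j ∉ J, u j = 0) → u = 0) ∧
      (∀ u : τ → ℂ, ∃ u' : τ → ℂ, (∀ j ∉ J, u' j = 0) ∧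
        ∀ lam ∈ Θ, ∑ i, (lam i : ℂ) * (u i - u' i) = 0) := by
  classical
  obtain ⟨J, c, hJc, hc1, hc2⟩ := exists_coords_iso'
    (Submodule.span ℚ ((fun (u : τ → ℤ) (i : τ) => (u i : ℚ)) '' Θ))
  -- for each j in J an element of the closure of Θ which is m e_j on J
  have hel : ∀ j ∈ J, ∃ (m : ℕ) (lam : τ → ℤ), 0 < m ∧ lam ∈ AddSubgroup.closure Θ ∧
      ∀ i ∈ J, lam i = if i = j then (m : ℤ) else 0 := by
    intro j hj
    obtain ⟨m, lam, hm, hlam, he⟩ := exists_mul_mem' Θ (hc2 j hj).1
    refine ⟨m, lam, hm, hlam, fun i hi => ?_⟩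
    have h1 := he i
    rw [(hc2 j hj).2 i hi] at h1
    split_ifs at h1 ⊢ with h
    · rw [mul_one] at h1; exact_mod_cast h1
    · rw [mul_zero] at h1; exact_mod_cast h1
  have hclexp : ∀ u : τ → ℂ, (∀ lam ∈ Θ, Complex.exp (∑ i, (lam i : ℂ) * u i) = 1) →
      ∀ lam ∈ AddSubgroup.closure Θ, Complex.exp (∑ i, (lam i : ℂ) * u i) = 1 := by
    intro u hu lam hlam
    induction hlam using AddSubgroup.closure_induction with
    | mem x hx => exact hu x hx
    | zero => simp
    | add x y _ _ hx hy =>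
      have : ∑ i, (((x + y) i : ℤ) : ℂ) * u i = ∑ i, (x i : ℂ) * u i + ∑ i, (y i : ℂ) * u i := by
        rw [← Finset.sum_add_distrib]
        refine Finset.sum_congr rfl fun i _ => ?_
        simp only [Pi.add_apply]
        push_cast
        ring
      rw [this, Complex.exp_add, hx, hy, mul_one]
    | neg x _ hx =>
      have : ∑ i, (((-x) i : ℤ) : ℂ) * u i = -∑ i, (x i : ℂ) * u i := by
        rw [← Finset.sum_neg_distrib]
        refine Finset.sum_congr rfl fun i _ => ?_
        simp only [Pi.neg_apply]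
        push_cast
        ring
      rw [this, Complex.exp_neg, hx, inv_one]
  have hcl0 : ∀ u : τ → ℂ, (∀ lam ∈ Θ, ∑ i, (lam i : ℂ) * u i = 0) →
      ∀ lam ∈ AddSubgroup.closure Θ, ∑ i, (lam i : ℂ) * u i = 0 := by
    intro u hu lam hlam
    induction hlam using AddSubgroup.closure_induction with
    | mem x hx => exact hu x hx
    | zero => simp
    | add x y _ _ hx hy =>
      have : ∑ i, (((x + y) i : ℤ) : ℂ) * u i = ∑ i, (x i : ℂ) * u i + ∑ i, (y i : ℂ) * u i := by
        rw [← Finset.sum_add_distrib]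
        refine Finset.sum_congr rfl fun i _ => ?_
        simp only [Pi.add_apply]
        push_cast
        ring
      rw [this, hx, hy, add_zero]
    | neg x _ hx =>
      have : ∑ i, (((-x) i : ℤ) : ℂ) * u i = -∑ i, (x i : ℂ) * u i := by
        rw [← Finset.sum_neg_distrib]
        refine Finset.sum_congr rfl fun i _ => ?_
        simp only [Pi.neg_apply]
        push_cast
        ring
      rw [this, hx, neg_zero]
  -- the value of the combination on vectors supported on J
  have hval : ∀ (u : τ → ℂ) (j : τ), j ∈ J → (∀ i ∉ J, u i = 0) → ∀ (m : ℕ) (lam : τ → ℤ),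
      (∀ i ∈ J, lam i = if i = j then (m : ℤ) else 0) → ∑ i, (lam i : ℂ) * u i = m * u j := by
    intro u j hj hu m lam hv
    rw [Finset.sum_eq_single j]
    · rw [hv j hj, if_pos rfl]; simp
    · intro i _ hij
      by_cases hi : i ∈ J
      · rw [hv i hi, if_neg hij]; simp
      · rw [hu i hi, mul_zero]
    · intro h'; exact absurd (Finset.mem_univ _) h'
  refine ⟨J, ?_, ?_, ?_⟩
  · choose! m lam hm hlam hv using hel
    let N : τ → ℕ := fun j => if j ∈ J then m j else 1
    have hN : ∀ j, 0 < N j := by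
      intro j
      simp only [N]
      split_ifs with h
      · exact hm j h
      · exact one_pos
    refine Set.Finite.subset (Set.Finite.pi' (t := fun j => {w : ℂ | w ^ N j = 1}) ?_) ?_
    · intro j
      refine Set.Finite.subset (Polynomial.nthRoots (N j) (1 : ℂ)).toFinset.finite_toSet ?_
      intro w hw
      rw [Finset.mem_coe, Multiset.mem_toFinset, Polynomial.mem_nthRoots (hN j)]
      exact hw
    · rintro z ⟨u, rfl, hu1, hu2⟩ j
      simp only [N, Set.mem_ofPred_eq]
      split_ifs with h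
      · have h1 := hclexp u hu2 _ (hlam j h)
        rw [hval u j h hu1 (m j) (lam j) (hv j h), Complex.exp_nat_mul] at h1
        exact h1
      · rw [hu1 j h, Complex.exp_zero, one_pow]
  · intro u hu1 hu2
    funext j
    by_cases hj : j ∈ J
    · obtain ⟨m, lam, hm, hlam, hv⟩ := hel j hj
      have h1 := hcl0 u hu1 lam hlam
      rw [hval u j hj hu2 m lam hv] at h1
      rcases mul_eq_zero.1 h1 with h2 | h2
      · exact absurd h2 (by exact_mod_cast hm.ne')
      · exact h2
    · exact hu2 j hj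
  · intro u
    refine ⟨fun j => if j ∈ J then ∑ i, ((c i j : ℚ) : ℂ) * u i else 0, fun j hj => if_neg hj, ?_⟩
    intro lam hlam
    have h1 : ∀ i, (lam i : ℂ) = ∑ j ∈ J, ((c i j : ℚ) : ℂ) * (lam j : ℂ) := by
      intro i
      have := hc1 (fun i => (lam i : ℚ)) (Submodule.subset_span ⟨lam, hlam, rfl⟩) i
      have h2 : ((lam i : ℚ) : ℂ) = ((∑ j ∈ J, c i j * (lam j : ℚ) : ℚ) : ℂ) := by rw [this]
      push_cast at h2
      exact h2
    simp only [mul_sub, Finset.sum_sub_distrib]
    rw [sub_eq_zero]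
    calc ∑ i, (lam i : ℂ) * u i = ∑ i, (∑ j ∈ J, ((c i j : ℚ) : ℂ) * (lam j : ℂ)) * u i := by
          refine Finset.sum_congr rfl fun i _ => ?_
          rw [← h1 i]
      _ = ∑ j ∈ J, (lam j : ℂ) * ∑ i, ((c i j : ℚ) : ℂ) * u i := by
          simp only [Finset.sum_mul, Finset.mul_sum]
          rw [Finset.sum_comm]
          refine Finset.sum_congr rfl fun j _ => Finset.sum_congr rfl fun i _ => ?_
          ring
      _ = ∑ j, (lam j : ℂ) * (if j ∈ J then ∑ i, ((c i j : ℚ) : ℂ) * u i else 0) := by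
          rw [← Finset.sum_subset (Finset.subset_univ J)]
          · refine Finset.sum_congr rfl fun j hj => ?_
            rw [if_pos hj]
          · intro j _ hj
            rw [if_neg hj, mul_zero]

/-- Complementary coordinates for a subspace. -/
theorem lin_compl' {K : Type*} [Field K] {ρ : Type*} [Fintype ρ] [DecidableEq ρ]
    (L : Submodule K (ρ → K)) :
    ∃ I : Finset ρ,
      (∀ x ∈ L, (∀ i ∉ I, x i = 0) → x = 0) ∧
      (∀ x : ρ → K, ∃ x' : ρ → K, (∀ i ∉ I, x' i = 0) ∧ x - x' ∈ L) := by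
  classical
  let q : (ρ → K) →ₗ[K] ((ρ → K) ⧸ L) := L.mkQ
  let v : ρ → ((ρ → K) ⧸ L) := fun i => q (Pi.single i 1)
  have hspan : Submodule.span K (Set.range v) = ⊤ := by
    rw [eq_top_iff]
    intro y _
    obtain ⟨x, rfl⟩ := L.mkQ_surjective y
    have h1 : x = ∑ i, x i • (Pi.single i 1 : ρ → K) := by
      funext j
      simp [Finset.sum_apply, Pi.single_apply]
    rw [h1, map_sum]
    refine Submodule.sum_mem _ fun i _ => ?_
    rw [map_smul]
    exact Submodule.smul_mem _ _ (Submodule.subset_span ⟨i, rfl⟩)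
  obtain ⟨κ, a, hainj, hsp, hind⟩ := exists_linearIndependent' K v
  have hfin : Finite κ := Finite.of_injective a hainj
  have := Fintype.ofFinite κ
  rw [hspan] at hsp
  let I : Finset ρ := Finset.univ.image a
  refine ⟨I, ?_, ?_⟩
  · intro x hx hx0
    have h1 : q x = 0 := (Submodule.Quotient.mk_eq_zero L).2 hx
    have h2 : x = ∑ k : κ, x (a k) • (Pi.single (a k) 1 : ρ → K) := by
      funext j
      rw [Finset.sum_apply]
      simp only [Pi.smul_apply, smul_eq_mul, Pi.single_apply]
      by_cases hj : j ∈ I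
      · obtain ⟨k, -, rfl⟩ := Finset.mem_image.1 hj
        rw [Finset.sum_eq_single k]
        · simp
        · intro b _ hb
          rw [if_neg (fun h => hb (hainj h).symm)]; simp
        · intro h'; exact absurd (Finset.mem_univ _) h'
      · rw [hx0 j hj]
        symm
        refine Finset.sum_eq_zero fun k _ => ?_
        rw [if_neg]
        · simp
        · rintro rfl
          exact hj (Finset.mem_image_of_mem _ (Finset.mem_univ _))
    rw [h2, map_sum] at h1
    simp only [map_smul] at h1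
    have h3 := linearIndependent_iff'.1 hind Finset.univ (fun k => x (a k)) h1
    rw [h2]
    refine Finset.sum_eq_zero fun k _ => ?_
    rw [h3 k (Finset.mem_univ _), zero_smul]
  · intro x
    have h1 : q x ∈ Submodule.span K (Set.range (v ∘ a)) := by rw [hsp]; trivial
    obtain ⟨c, hc⟩ := (Submodule.mem_span_range_iff_exists_fun K).1 h1
    refine ⟨∑ k : κ, c k • (Pi.single (a k) 1 : ρ → K), ?_, ?_⟩
    · intro i hi
      rw [Finset.sum_apply]
      refine Finset.sum_eq_zero fun k _ => ?_
      simp only [Pi.smul_apply, smul_eq_mul, Pi.single_apply]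
      rw [if_neg]
      · simp
      · rintro rfl
        exact hi (Finset.mem_image_of_mem _ (Finset.mem_univ _))
    · rw [← Submodule.Quotient.mk_eq_zero L]
      have h2 : q (x - ∑ k : κ, c k • (Pi.single (a k) 1 : ρ → K)) = 0 := by
        rw [map_sub, map_sum, sub_eq_zero, ← hc]
        refine Finset.sum_congr rfl fun k _ => ?_
        rw [map_smul]
        rfl
      exact h2

/-- dimension count from the complement -/
theorem compl_card {K : Type*} [Field K] {ρ : Type*} [Fintype ρ] [DecidableEq ρ]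
    (L : Submodule K (ρ → K)) (I : Finset ρ)
    (h1 : ∀ x ∈ L, (∀ i ∉ I, x i = 0) → x = 0)
    (h2 : ∀ x : ρ → K, ∃ x' : ρ → K, (∀ i ∉ I, x' i = 0) ∧ x - x' ∈ L) :
    I.card + finrank K L = Fintype.card ρ := by
  classical
  let ext : (I → K) →ₗ[K] (ρ → K) :=
    { toFun := fun a i => if h : i ∈ I then a ⟨i, h⟩ else 0
      map_add' := by
        intro a b; funext i
        by_cases h : i ∈ I <;> simp [h]
      map_smul' := by
        intro c a; funext i
        by_cases h : i ∈ I <;> simp [h] }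
  have hext : ∀ a i, (h : i ∈ I) → ext a i = a ⟨i, h⟩ := fun a i h => dif_pos h
  have hext0 : ∀ a i, i ∉ I → ext a i = 0 := fun a i h => dif_neg h
  let q : (ρ → K) →ₗ[K] ((ρ → K) ⧸ L) := L.mkQ
  let f : (I → K) →ₗ[K] ((ρ → K) ⧸ L) := q.comp ext
  have hinj : Function.Injective f := by
    rw [← LinearMap.ker_eq_bot, LinearMap.ker_eq_bot']
    intro a ha
    have h3 : ext a ∈ L := (Submodule.Quotient.mk_eq_zero L).1 ha
    have h4 := h1 _ h3 (fun i hi => hext0 a i hi)
    funext i
    have := congrFun h4 i.1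
    rw [hext a i.1 i.2] at this
    exact this
  have hsurj : Function.Surjective f := by
    intro y
    obtain ⟨x, rfl⟩ := L.mkQ_surjective y
    obtain ⟨x', hx', hxx⟩ := h2 x
    refine ⟨fun i => x' i, ?_⟩
    have h3 : ext (fun i => x' i) = x' := by
      funext i
      by_cases h : i ∈ I
      · rw [hext _ i h]
      · rw [hext0 _ i h, hx' i h]
    show q (ext fun i => x' i) = q x
    rw [h3]
    have h4 : q (x - x') = 0 := (Submodule.Quotient.mk_eq_zero L).2 hxx
    rw [map_sub, sub_eq_zero] at h4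
    exact h4.symm
  have h5 : finrank K (I → K) = finrank K ((ρ → K) ⧸ L) :=
    LinearEquiv.finrank_eq (LinearEquiv.ofBijective f ⟨hinj, hsurj⟩)
  have h6 := Submodule.finrank_quotient_add_finrank L
  rw [← h5, finrank_fintype_fun_eq_card, finrank_fintype_fun_eq_card, Fintype.card_coe] at h6
  exact h6

end Pool.Agent.H35.HR
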